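import Mathlib

set_option autoImplicit false

open scoped BigOperators Matrix ComplexOrder InnerProductSpace

namespace Pool.Agent.Helper965.O2

set_option linter.unusedSectionVars false

section nrm

variable {H : Type} [NormedAddCommGroup H] [InnerProductSpace ℂ H]
variable {κ : Type} [Fintype κ]

/-- `ℓ²`-norm of a finite family of vectors. -/
noncomputable def nrm (h : κ → H) : ℝ := ‖(WithLp.toLp 2 h : PiLp 2 (fun _ : κ => H))‖

lemma nrm_nonneg (h : κ → H) : 0 ≤ nrm h := norm_nonneg _

lemma nrm_sq (h : κ → H) : nrm h ^ 2 = ∑ k, ‖h k‖ ^ 2 := by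
  unfold nrm
  rw [PiLp.norm_sq_eq_of_L2]

lemma nrm_add_le (h h' : κ → H) : nrm (h + h') ≤ nrm h + nrm h' := by
  unfold nrm
  rw [WithLp.toLp_add]
  exact norm_add_le _ _

lemma nrm_smul (c : ℂ) (h : κ → H) : nrm (c • h) = ‖c‖ * nrm h := by
  unfold nrm
  rw [WithLp.toLp_smul, norm_smul]

lemma nrm_le_of_sq {h : κ → H} {c : ℝ} (hc : 0 ≤ c) (hh : ∑ k, ‖h k‖ ^ 2 ≤ c ^ 2) : nrm h ≤ c := by
  rw [← nrm_sq] at hh
  exact le_of_sq_le_sq hh hc

/-- Action of a scalar matrix on families of vectors. -/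
noncomputable def act (x : Matrix κ κ ℂ) (h : κ → H) : κ → H := fun i => ∑ j, x i j • h j

lemma act_add (x : Matrix κ κ ℂ) (h h' : κ → H) : act x (h + h') = act x h + act x h' := by
  ext i
  simp [act, Finset.sum_add_distrib]

lemma act_sub (x : Matrix κ κ ℂ) (h h' : κ → H) : act x (h - h') = act x h - act x h' := by
  ext i
  simp [act, Finset.sum_sub_distrib, smul_sub]

lemma add_act (x y : Matrix κ κ ℂ) (h : κ → H) : act (x + y) h = act x h + act y h := by
  ext i
  simp [act, Finset.sum_add_distrib, add_smul]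

lemma mul_act (x y : Matrix κ κ ℂ) (h : κ → H) : act (x * y) h = act x (act y h) := by
  ext i
  simp only [act, Matrix.mul_apply, Finset.sum_smul, Finset.smul_sum, smul_smul]
  rw [Finset.sum_comm]

end nrm

section words

/-- Words of length `< m`. -/
def wds : ℕ → Finset (List Bool)
  | 0 => ∅
  | m + 1 => insert [] ((wds m).image (List.cons true) ∪ (wds m).image (List.cons false))

lemma mem_wds (m : ℕ) (l : List Bool) : l ∈ wds m ↔ l.length < m := by
  induction m generalizing l with
  | zero => simp [wds]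
  | succ m ih =>
    cases l with
    | nil => simp [wds]
    | cons b l =>
      cases b <;> simp [wds, ih]

lemma sum_wds_succ {M : Type} [AddCommMonoid M] (m : ℕ) (f : List Bool → M) :
    ∑ l ∈ wds (m + 1), f l =
      f [] + (∑ l ∈ wds m, f (true :: l) + ∑ l ∈ wds m, f (false :: l)) := by
  rw [wds, Finset.sum_insert, Finset.sum_union, Finset.sum_image, Finset.sum_image]
  · intro a _ b _ h
    simpa using h
  · intro a _ b _ h
    simpa using h
  · rw [Finset.disjoint_left]
    intro a ha hb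
    simp only [Finset.mem_image] at ha hb
    obtain ⟨x, -, rfl⟩ := ha
    obtain ⟨y, -, hy⟩ := hb
    simp at hy
  · simp

end words


section cuntz

variable {H : Type} [NormedAddCommGroup H] [InnerProductSpace ℂ H] [CompleteSpace H]

/-- The Cuntz relations for a pair of operators, indexed by `Bool`. -/
structure IsCuntz (S : Bool → H →L[ℂ] H) : Prop where
  iso : ∀ i, star (S i) * S i = 1
  sum : S true * star (S true) + S false * star (S false) = 1

/-- Adjoints of the word operators. -/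
noncomputable def rop (S : Bool → H →L[ℂ] H) : List Bool → (H →L[ℂ] H)
  | [] => 1
  | i :: μ => rop S μ * star (S i)

variable {S : Bool → H →L[ℂ] H}

lemma IsCuntz.orth (hS : IsCuntz S) {i j : Bool} (hij : i ≠ j) : star (S i) * S j = 0 := by
  have hs := hS.sum
  have key : star (S true) * S false = 0 := by
    have h1 : star (S true) * S false =
        star (S true) * (S true * star (S true) + S false * star (S false)) * S false := by
      rw [hs, mul_one]
    have h2 : star (S true) * (S true * star (S true) + S false * star (S false)) * S false =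
        (star (S true) * S true) * (star (S true) * S false) +
        (star (S true) * S false) * (star (S false) * S false) := by
      simp only [mul_add, add_mul, mul_assoc]
    rw [hS.iso, hS.iso, one_mul, mul_one] at h2
    rw [h2] at h1
    have h3 : star (S true) * S false + star (S true) * S false =
      star (S true) * S false + 0 := by rw [add_zero]; exact h1.symm
    exact add_left_cancel h3
  cases i <;> cases j
  · exact absurd rfl hij
  · have := congrArg star key
    simpa using this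
  · exact key
  · exact absurd rfl hij

lemma IsCuntz.star_mul (hS : IsCuntz S) (i j : Bool) :
    star (S i) * S j = if i = j then 1 else 0 := by
  split_ifs with h
  · rw [h]; exact hS.iso j
  · exact hS.orth h

lemma norm_of_iso {T : H →L[ℂ] H} (hT : star T * T = 1) (g : H) : ‖T g‖ = ‖g‖ := by
  have h1 : ‖T g‖ ^ 2 = ‖g‖ ^ 2 := by
    rw [← @inner_self_eq_norm_sq ℂ H, ← @inner_self_eq_norm_sq ℂ H,
      ← ContinuousLinearMap.adjoint_inner_right]
    have : ContinuousLinearMap.adjoint T (T g) = (star T * T) g := rfl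
    rw [this, hT]
    rfl
  exact (sq_eq_sq₀ (norm_nonneg _) (norm_nonneg _)).1 h1

lemma IsCuntz.norm_S (hS : IsCuntz S) (i : Bool) (g : H) : ‖S i g‖ = ‖g‖ :=
  norm_of_iso (hS.iso i) g

lemma IsCuntz.norm_sum (hS : IsCuntz S) (g : H) :
    ‖star (S true) g‖ ^ 2 + ‖star (S false) g‖ ^ 2 = ‖g‖ ^ 2 := by
  have h : ∀ i, ‖star (S i) g‖ ^ 2 = RCLike.re (inner ℂ ((S i * star (S i)) g) g) := by
    intro i
    rw [← @inner_self_eq_norm_sq ℂ H]
    have h2 : inner ℂ (star (S i) g) (star (S i) g) = inner ℂ (S i (star (S i) g)) g := by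
      exact ContinuousLinearMap.adjoint_inner_right (S i) (star (S i) g) g
    rw [h2]
    rfl
  rw [h, h, ← map_add, ← inner_add_left, ← add_apply, hS.sum]
  exact inner_self_eq_norm_sq g

lemma IsCuntz.norm_star_le (hS : IsCuntz S) (i : Bool) (g : H) : ‖star (S i) g‖ ≤ ‖g‖ := by
  have h := hS.norm_sum g
  cases i
  · exact le_of_sq_le_sq (by nlinarith [sq_nonneg ‖star (S true) g‖]) (norm_nonneg _)
  · exact le_of_sq_le_sq (by nlinarith [sq_nonneg ‖star (S false) g‖]) (norm_nonneg _)

lemma IsCuntz.sum_rop (hS : IsCuntz S) (m : ℕ) (g : H) :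
    ∑ l ∈ wds m, ‖rop S l g‖ ^ 2 = m * ‖g‖ ^ 2 := by
  induction m generalizing g with
  | zero => simp [wds]
  | succ m ih =>
    rw [sum_wds_succ]
    have h1 : ∀ i l, rop S (i :: l) g = rop S l (star (S i) g) := fun i l => rfl
    simp only [h1, ih]
    have h2 : rop S [] g = g := rfl
    rw [h2, ← mul_add, hS.norm_sum]
    push_cast
    ring

/-- The map `g ↦ (s_β^* g)_β`. -/
noncomputable def R (S : Bool → H →L[ℂ] H) (m : ℕ) (g : H) : wds m → H := fun β => rop S β.1 g

lemma IsCuntz.nrm_R (hS : IsCuntz S) (m : ℕ) (g : H) : nrm (R S m g) = Real.sqrt m * ‖g‖ := by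
  have h : nrm (R S m g) ^ 2 = (Real.sqrt m * ‖g‖) ^ 2 := by
    rw [nrm_sq, mul_pow, Real.sq_sqrt (Nat.cast_nonneg m), ← hS.sum_rop m g]
    exact Finset.sum_coe_sort (wds m) (fun l => ‖rop S l g‖ ^ 2)
  exact (sq_eq_sq₀ (nrm_nonneg _) (by positivity)).1 h

lemma R_add (m : ℕ) (g g' : H) : R S m (g + g') = R S m g + R S m g' := by
  ext β; simp [R]

lemma R_sub (m : ℕ) (g g' : H) : R S m (g - g') = R S m g - R S m g' := by
  ext β; simp [R]

lemma R_smul (m : ℕ) (c : ℂ) (g : H) : R S m (c • g) = c • R S m g := by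
  ext β; simp [R]

/-- `V` is almost intertwined with scalar matrices by the maps `R`, with bounded errors. -/
def Good (S : Bool → H →L[ℂ] H) (V : H →L[ℂ] H) : Prop :=
  ∃ C : ℝ, 0 ≤ C ∧ ∀ m : ℕ, ∃ x : Matrix (wds m) (wds m) ℂ,
    (∀ h : wds m → H, nrm (act x h) ≤ C * nrm h) ∧
    (∀ h : wds m → H, nrm (act xᴴ h) ≤ C * nrm h) ∧
    (∀ g : H, nrm (R S m (V g) - act x (R S m g)) ≤ C * ‖g‖) ∧
    (∀ g : H, nrm (R S m (star V g) - act xᴴ (R S m g)) ≤ C * ‖g‖)

lemma Good.star' {V : H →L[ℂ] H} (h : Good S V) : Good S (star V) := by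
  obtain ⟨C, hC, h⟩ := h
  refine ⟨C, hC, fun m => ?_⟩
  obtain ⟨x, h1, h2, h3, h4⟩ := h m
  refine ⟨xᴴ, h2, ?_, h4, ?_⟩
  · rw [Matrix.conjTranspose_conjTranspose]; exact h1
  · rw [Matrix.conjTranspose_conjTranspose, star_star]; exact h3

lemma Good.add' {V W : H →L[ℂ] H} (hV : Good S V) (hW : Good S W) : Good S (V + W) := by
  obtain ⟨C, hC, h⟩ := hV
  obtain ⟨C', hC', h'⟩ := hW
  refine ⟨C + C', by positivity, fun m => ?_⟩
  obtain ⟨x, h1, h2, h3, h4⟩ := h m
  obtain ⟨y, k1, k2, k3, k4⟩ := h' m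
  refine ⟨x + y, fun h => ?_, fun h => ?_, fun g => ?_, fun g => ?_⟩
  · rw [add_act]
    calc _ ≤ _ := nrm_add_le _ _
      _ ≤ C * nrm h + C' * nrm h := add_le_add (h1 h) (k1 h)
      _ = _ := by ring
  · rw [Matrix.conjTranspose_add, add_act]
    calc _ ≤ _ := nrm_add_le _ _
      _ ≤ C * nrm h + C' * nrm h := add_le_add (h2 h) (k2 h)
      _ = _ := by ring
  · have e : R S m ((V + W) g) - act (x + y) (R S m g) =
        (R S m (V g) - act x (R S m g)) + (R S m (W g) - act y (R S m g)) := by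
      rw [add_apply, R_add, add_act]; abel
    rw [e]
    calc _ ≤ _ := nrm_add_le _ _
      _ ≤ C * ‖g‖ + C' * ‖g‖ := add_le_add (h3 g) (k3 g)
      _ = _ := by ring
  · have e : R S m (star (V + W) g) - act (x + y)ᴴ (R S m g) =
        (R S m (star V g) - act xᴴ (R S m g)) + (R S m (star W g) - act yᴴ (R S m g)) := by
      rw [star_add, add_apply, R_add, Matrix.conjTranspose_add, add_act]; abel
    rw [e]
    calc _ ≤ _ := nrm_add_le _ _
      _ ≤ C * ‖g‖ + C' * ‖g‖ := add_le_add (h4 g) (k4 g)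
      _ = _ := by ring

lemma Good.algebraMap' (c : ℂ) : Good S (algebraMap ℂ (H →L[ℂ] H) c) := by
  refine ⟨‖c‖, norm_nonneg _, fun m => ⟨c • 1, ?_, ?_, ?_, ?_⟩⟩
  · intro h
    have : act (c • (1 : Matrix (wds m) (wds m) ℂ)) h = c • h := by
      ext i
      simp [act, Matrix.one_apply, ite_smul]
    rw [this, nrm_smul]
  · intro h
    have : act (c • (1 : Matrix (wds m) (wds m) ℂ))ᴴ h = star c • h := by
      rw [Matrix.conjTranspose_smul, Matrix.conjTranspose_one]
      ext i
      simp [act, Matrix.one_apply, ite_smul]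
    rw [this, nrm_smul, norm_star]
  · intro g
    have : act (c • (1 : Matrix (wds m) (wds m) ℂ)) (R S m g) = c • (R S m g) := by
      ext i
      simp [act, Matrix.one_apply, ite_smul]
    have e : (algebraMap ℂ (H →L[ℂ] H) c) g = c • g := rfl
    rw [this, e, R_smul, sub_self]
    have : nrm (0 : wds m → H) = 0 := by
      have := nrm_smul (0:ℂ) (0 : wds m → H)
      simpa using this
    rw [this]; positivity
  · intro g
    have : act (c • (1 : Matrix (wds m) (wds m) ℂ))ᴴ (R S m g) = star c • (R S m g) := by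
      rw [Matrix.conjTranspose_smul, Matrix.conjTranspose_one]
      ext i
      simp [act, Matrix.one_apply, ite_smul]
    have e : (star (algebraMap ℂ (H →L[ℂ] H) c)) g = star c • g := by
      rw [← algebraMap_star_comm]; rfl
    rw [this, e, R_smul, sub_self]
    have : nrm (0 : wds m → H) = 0 := by
      have := nrm_smul (0:ℂ) (0 : wds m → H)
      simpa using this
    rw [this]; positivity

lemma Good.mul' {V W : H →L[ℂ] H} (hV : Good S V) (hW : Good S W) : Good S (V * W) := by
  obtain ⟨C, hC, h⟩ := hV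
  obtain ⟨C', hC', h'⟩ := hW
  refine ⟨C * C' + C * ‖W‖ + C' * ‖V‖, by positivity, fun m => ?_⟩
  obtain ⟨x, h1, h2, h3, h4⟩ := h m
  obtain ⟨y, k1, k2, k3, k4⟩ := h' m
  have bnd : ∀ t : ℝ, 0 ≤ t → C * (C' * t) ≤ (C * C' + C * ‖W‖ + C' * ‖V‖) * t := by
    intro t ht
    have : 0 ≤ (C * ‖W‖ + C' * ‖V‖) * t := by positivity
    linarith
  refine ⟨x * y, fun h => ?_, fun h => ?_, fun g => ?_, fun g => ?_⟩
  · rw [mul_act]
    calc _ ≤ C * nrm (act y h) := h1 _
      _ ≤ C * (C' * nrm h) := by gcongr; exact k1 h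
      _ ≤ _ := bnd _ (nrm_nonneg _)
  · rw [Matrix.conjTranspose_mul, mul_act]
    calc _ ≤ C' * nrm (act xᴴ h) := k2 _
      _ ≤ C' * (C * nrm h) := by gcongr; exact h2 h
      _ = C * (C' * nrm h) := by ring
      _ ≤ _ := bnd _ (nrm_nonneg _)
  · have e : R S m ((V * W) g) - act (x * y) (R S m g) =
        (R S m (V (W g)) - act x (R S m (W g))) + act x (R S m (W g) - act y (R S m g)) := by
      have e0 : (V * W) g = V (W g) := rfl
      rw [e0, mul_act, act_sub]; abel
    rw [e]
    have hWg : ‖W g‖ ≤ ‖W‖ * ‖g‖ := W.le_opNorm g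
    calc _ ≤ _ := nrm_add_le _ _
      _ ≤ C * ‖W g‖ + C * (C' * ‖g‖) := by
          refine add_le_add (h3 _) ((h1 _).trans ?_)
          gcongr; exact k3 g
      _ ≤ C * (‖W‖ * ‖g‖) + C * (C' * ‖g‖) := by gcongr
      _ ≤ (C * C' + C * ‖W‖ + C' * ‖V‖) * ‖g‖ := by
          have : 0 ≤ C' * ‖V‖ * ‖g‖ := by positivity
          linarith
  · have e : R S m (star (V * W) g) - act (x * y)ᴴ (R S m g) =
        (R S m (star W (star V g)) - act yᴴ (R S m (star V g))) +
          act yᴴ (R S m (star V g) - act xᴴ (R S m g)) := by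
      have e0 : (star (V * W)) g = star W (star V g) := by rw [star_mul]; rfl
      rw [e0, Matrix.conjTranspose_mul, mul_act, act_sub]
      abel
    rw [e]
    have hVg : ‖star V g‖ ≤ ‖V‖ * ‖g‖ := by
      have := (star V).le_opNorm g
      rwa [norm_star] at this
    calc _ ≤ _ := nrm_add_le _ _
      _ ≤ C' * ‖star V g‖ + C' * (C * ‖g‖) := by
          refine add_le_add (k4 _) ((k2 _).trans ?_)
          gcongr; exact h4 g
      _ ≤ C' * (‖V‖ * ‖g‖) + C' * (C * ‖g‖) := by gcongr
      _ ≤ (C * C' + C * ‖W‖ + C' * ‖V‖) * ‖g‖ := by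
          have : 0 ≤ C * ‖W‖ * ‖g‖ := by positivity
          linarith

/-- Extension by zero. -/
noncomputable def ext0 {m : ℕ} (h : wds m → H) (l : List Bool) : H :=
  if hl : l ∈ wds m then h ⟨l, hl⟩ else 0

/-- The scalar matrix corresponding to a generator. -/
def gx (m : ℕ) (i : Bool) : Matrix (wds m) (wds m) ℂ :=
  Matrix.of fun α β => if α.1 = i :: β.1 then 1 else 0

lemma act_gx (m : ℕ) (i : Bool) (h : wds m → H) (α : wds m) :
    act (gx m i) h α = match α.1 with
      | [] => 0
      | j :: l => if j = i then ext0 h l else 0 := by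
  obtain ⟨α, hα⟩ := α
  cases α with
  | nil => simp [act, gx]
  | cons j l =>
    have hl : l ∈ wds m := by
      rw [mem_wds] at hα ⊢
      simp at hα; omega
    simp only [act, gx, Matrix.of_apply, List.cons.injEq]
    by_cases hj : j = i
    · subst hj
      simp only [true_and, if_true]
      rw [Finset.sum_eq_single ⟨l, hl⟩]
      · simp [ext0, hl]
      · intro b _ hb
        rw [if_neg, zero_smul]
        intro hlb
        exact hb (Subtype.ext hlb.symm)
      · simp
    · simp [hj]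

lemma act_gx_star (m : ℕ) (i : Bool) (h : wds m → H) (α : wds m) :
    act (gx m i)ᴴ h α = ext0 h (i :: α.1) := by
  simp only [act, gx, Matrix.conjTranspose_apply, Matrix.of_apply]
  by_cases hi : i :: α.1 ∈ wds m
  · rw [Finset.sum_eq_single ⟨i :: α.1, hi⟩]
    · simp [ext0, hi]
    · intro b _ hb
      rw [if_neg, star_zero, zero_smul]
      intro hlb
      exact hb (Subtype.ext hlb)
    · simp
  · rw [ext0, dif_neg hi]
    apply Finset.sum_eq_zero
    intro b _
    rw [if_neg, star_zero, zero_smul]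
    intro hlb
    exact hi (hlb ▸ b.2)

lemma sum_ext0 {m : ℕ} (h : wds m → H) : ∑ l ∈ wds m, ‖ext0 h l‖ ^ 2 = nrm h ^ 2 := by
  rw [nrm_sq, ← Finset.sum_coe_sort (wds m) (fun l => ‖ext0 h l‖ ^ 2)]
  apply Finset.sum_congr rfl
  rintro ⟨l, hl⟩ _
  simp [ext0, hl]

lemma sum_sub {m : ℕ} (F : wds m → ℝ) (f : List Bool → ℝ) (h : ∀ α : wds m, F α = f α.1) :
    ∑ α, F α = ∑ l ∈ wds m, f l := by
  rw [← Finset.sum_coe_sort (wds m) f]
  exact Finset.sum_congr rfl fun α _ => h α

lemma wds_mono {m n : ℕ} (h : m ≤ n) : wds m ⊆ wds n := by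
  intro l hl
  rw [mem_wds] at hl ⊢
  omega

lemma sum_wds_mono {m n : ℕ} (h : m ≤ n) (f : List Bool → ℝ) (hf : ∀ l, 0 ≤ f l) :
    ∑ l ∈ wds m, f l ≤ ∑ l ∈ wds n, f l :=
  Finset.sum_le_sum_of_subset_of_nonneg (wds_mono h) (fun i _ _ => hf i)

lemma sum_cons_le (m : ℕ) (i : Bool) (f : List Bool → ℝ) (hf : ∀ l, 0 ≤ f l) :
    ∑ l ∈ wds m, f (i :: l) ≤ ∑ l ∈ wds (m + 1), f l := by
  rw [sum_wds_succ]
  have h1 : 0 ≤ ∑ l ∈ wds m, f (true :: l) := Finset.sum_nonneg fun _ _ => hf _
  have h2 : 0 ≤ ∑ l ∈ wds m, f (false :: l) := Finset.sum_nonneg fun _ _ => hf _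
  have h3 := hf []
  cases i <;> linarith

lemma nrm_act_gx_le (m : ℕ) (i : Bool) (h : wds m → H) : nrm (act (gx m i) h) ≤ nrm h := by
  apply nrm_le_of_sq (nrm_nonneg _)
  rw [← sum_ext0]
  cases m with
  | zero =>
    have : IsEmpty (wds 0) := ⟨fun x => Finset.notMem_empty x.1 x.2⟩
    rw [Finset.univ_eq_empty, Finset.sum_empty]
    simp [wds]
  | succ m =>
    have e : ∀ α : wds (m + 1), ‖act (gx (m + 1) i) h α‖ ^ 2 =
        (fun l : List Bool => ‖(match l with
          | [] => (0 : H)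
          | j :: l => if j = i then ext0 h l else 0)‖ ^ 2) α.1 := by
      intro α
      rw [act_gx]
    rw [sum_sub _ (fun l : List Bool => ‖(match l with
          | [] => (0 : H)
          | j :: l => if j = i then ext0 h l else 0)‖ ^ 2) e, sum_wds_succ]
    have h1 := sum_wds_mono (Nat.le_succ m) (fun l => ‖ext0 h l‖ ^ 2) (fun l => by positivity)
    cases i
    · simpa using h1
    · simpa using h1

lemma nrm_act_gx_star_le (m : ℕ) (i : Bool) (h : wds m → H) :
    nrm (act (gx m i)ᴴ h) ≤ nrm h := by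
  apply nrm_le_of_sq (nrm_nonneg _)
  rw [← sum_ext0]
  have e : ∀ α : wds m, ‖act (gx m i)ᴴ h α‖ ^ 2 =
      (fun l : List Bool => ‖ext0 h (i :: l)‖ ^ 2) α.1 := by
    intro α
    rw [act_gx_star]
  rw [sum_sub _ (fun l : List Bool => ‖ext0 h (i :: l)‖ ^ 2) e]
  cases m with
  | zero => simp [wds]
  | succ m =>
    have h1 := sum_cons_le m i (fun l => ‖ext0 h l‖ ^ 2) (fun l => by positivity)
    refine le_trans ?_ h1
    have h2 : ∑ l ∈ wds (m + 1), ‖ext0 h (i :: l)‖ ^ 2 = ∑ l ∈ wds m, ‖ext0 h (i :: l)‖ ^ 2 := by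
      symm
      apply Finset.sum_subset (wds_mono (Nat.le_succ m))
      intro l _ hl
      have : i :: l ∉ wds (m + 1) := by
        rw [mem_wds] at hl ⊢
        simpa using hl
      simp [ext0, this]
    exact le_of_eq h2

lemma IsCuntz.good_gen (hS : IsCuntz S) (i : Bool) : Good S (S i) := by
  refine ⟨1, zero_le_one, fun m => ⟨gx m i, ?_, ?_, ?_, ?_⟩⟩
  · intro h; rw [one_mul]; exact nrm_act_gx_le m i h
  · intro h; rw [one_mul]; exact nrm_act_gx_star_le m i h
  · intro g
    rw [one_mul]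
    apply nrm_le_of_sq (norm_nonneg _)
    have e : ∀ α : wds m, ‖(R S m (S i g) - act (gx m i) (R S m g)) α‖ ^ 2 =
        (fun l : List Bool => if l = [] then ‖g‖ ^ 2 else 0) α.1 := by
      rintro ⟨α, hα⟩
      rw [Pi.sub_apply, act_gx]
      cases α with
      | nil =>
        have : R S m (S i g) ⟨[], hα⟩ = S i g := rfl
        simp [this, hS.norm_S]
      | cons j l =>
        have hl : l ∈ wds m := by
          rw [mem_wds] at hα ⊢
          simp at hα; omega
        have h1 : R S m (S i g) ⟨j :: l, hα⟩ = rop S l ((star (S j) * S i) g) := rfl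
        rw [h1, hS.star_mul]
        by_cases hj : j = i
        · simp [hj, ext0, hl, R]
        · simp [hj]
    rw [sum_sub _ (fun l : List Bool => if l = [] then ‖g‖ ^ 2 else 0) e, Finset.sum_ite_eq']
    split_ifs
    · exact le_refl _
    · positivity
  · intro g
    rw [one_mul]
    apply nrm_le_of_sq (norm_nonneg _)
    have e : ∀ α : wds m, ‖(R S m (star (S i) g) - act (gx m i)ᴴ (R S m g)) α‖ ^ 2 =
        (fun l : List Bool => if i :: l ∈ wds m then 0 else ‖rop S l (star (S i) g)‖ ^ 2) α.1 := by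
      rintro ⟨α, hα⟩
      rw [Pi.sub_apply, act_gx_star]
      by_cases hi : i :: α ∈ wds m
      · have : R S m (star (S i) g) ⟨α, hα⟩ = R S m g ⟨i :: α, hi⟩ := rfl
        simp [ext0, hi, this]
      · simp [ext0, hi, R]
    rw [sum_sub _ (fun l : List Bool =>
      if i :: l ∈ wds m then 0 else ‖rop S l (star (S i) g)‖ ^ 2) e]
    cases m with
    | zero => simp [wds]
    | succ m =>
      have h1 : ∑ l ∈ wds (m + 1), (if i :: l ∈ wds (m + 1) then 0 else
          ‖rop S l (star (S i) g)‖ ^ 2) + ∑ l ∈ wds m, ‖rop S l (star (S i) g)‖ ^ 2 =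
          ∑ l ∈ wds (m + 1), ‖rop S l (star (S i) g)‖ ^ 2 := by
        have h2 : ∑ l ∈ wds m, ‖rop S l (star (S i) g)‖ ^ 2 =
            ∑ l ∈ wds (m + 1), (if i :: l ∈ wds (m + 1) then
              ‖rop S l (star (S i) g)‖ ^ 2 else 0) := by
          rw [← Finset.sum_filter]
          apply Finset.sum_congr _ fun _ _ => rfl
          ext l
          simp only [Finset.mem_filter, mem_wds, List.length_cons]
          omega
        rw [h2, ← Finset.sum_add_distrib]
        apply Finset.sum_congr rfl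
        intro l _
        split_ifs <;> simp
      rw [hS.sum_rop, hS.sum_rop] at h1
      push_cast at h1
      have h3 := hS.norm_star_le i g
      have h4 : ‖star (S i) g‖ ^ 2 ≤ ‖g‖ ^ 2 := pow_le_pow_left₀ (norm_nonneg _) h3 2
      linarith

lemma IsCuntz.good_adjoin (hS : IsCuntz S) {V : H →L[ℂ] H}
    (hV : V ∈ StarAlgebra.adjoin ℂ (Set.range S)) : Good S V := by
  induction hV using StarAlgebra.adjoin_induction with
  | mem x hx =>
    obtain ⟨i, rfl⟩ := hx
    exact hS.good_gen i
  | algebraMap r => exact Good.algebraMap' r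
  | add x y _ _ hx hy => exact hx.add' hy
  | mul x y _ _ hx hy => exact hx.mul' hy
  | star x _ hx => exact hx.star'

end cuntz

end Pool.Agent.Helper965.O2
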