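import Pool.Agent.Helper965.O2.Base

set_option autoImplicit false

open scoped BigOperators Matrix ComplexOrder

namespace Pool.Agent.Helper965.O2

/-! ### characters -/

section chars

variable {N : ℕ} [NeZero N]

theorem conj_chi (x : ZMod N) :
    (starRingEnd ℂ) (ZMod.stdAddChar x : ℂ) = ZMod.stdAddChar (-x) :=
  (AddChar.map_neg_eq_conj _ x).symm

theorem chi_mul (x y : ZMod N) :
    (ZMod.stdAddChar x : ℂ) * ZMod.stdAddChar y = ZMod.stdAddChar (x + y) :=
  (AddChar.map_add_eq_mul _ x y).symm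

theorem norm_chi (x : ZMod N) : ‖(ZMod.stdAddChar x : ℂ)‖ = 1 := by
  exact AddChar.norm_apply _ x

theorem sum_chi (b : ZMod N) :
    ∑ x : ZMod N, (ZMod.stdAddChar (x * b) : ℂ) = if b = 0 then (N : ℂ) else 0 := by
  rw [AddChar.sum_mulShift b (ZMod.isPrimitive_stdAddChar N), ZMod.card]
  split_ifs <;> simp

/-- one dimensional Plancherel -/
theorem plancherel (f : ZMod N → ℂ) :
    ∑ s : ZMod N, ‖∑ p, f p * (ZMod.stdAddChar (-(s * p)) : ℂ)‖ ^ 2 = N * ∑ p, ‖f p‖ ^ 2 := by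
  have h1 : ∀ z : ℂ, ((‖z‖ ^ 2 : ℝ) : ℂ) = z * (starRingEnd ℂ) z := by
    intro z
    rw [Complex.mul_conj, Complex.normSq_eq_norm_sq]
  have h2 : ((∑ s : ZMod N, ‖∑ p, f p * (ZMod.stdAddChar (-(s * p)) : ℂ)‖ ^ 2 : ℝ) : ℂ) =
      ((N * ∑ p, ‖f p‖ ^ 2 : ℝ) : ℂ) := by
    rw [Complex.ofReal_sum]
    simp only [h1]
    rw [Complex.ofReal_mul, Complex.ofReal_sum]
    simp only [h1, Complex.ofReal_natCast]
    calc ∑ s : ZMod N, (∑ p, f p * (ZMod.stdAddChar (-(s * p)) : ℂ)) *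
          (starRingEnd ℂ) (∑ p, f p * (ZMod.stdAddChar (-(s * p)) : ℂ))
        = ∑ s : ZMod N, ∑ p, ∑ q, f p * (starRingEnd ℂ) (f q) *
            (ZMod.stdAddChar (s * (q - p)) : ℂ) := by
          refine Finset.sum_congr rfl fun s _ => ?_
          rw [map_sum, Finset.sum_mul_sum]
          refine Finset.sum_congr rfl fun p _ => Finset.sum_congr rfl fun q _ => ?_
          rw [map_mul, conj_chi]
          have : (ZMod.stdAddChar (s * (q - p)) : ℂ) =
              ZMod.stdAddChar (-(s * p)) * ZMod.stdAddChar (- -(s * q)) := by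
            rw [chi_mul]
            congr 1
            ring
          rw [this]
          ring
      _ = ∑ p, ∑ q, f p * (starRingEnd ℂ) (f q) *
            ∑ s : ZMod N, (ZMod.stdAddChar (s * (q - p)) : ℂ) := by
          rw [Finset.sum_comm]
          refine Finset.sum_congr rfl fun p _ => ?_
          rw [Finset.sum_comm]
          refine Finset.sum_congr rfl fun q _ => ?_
          rw [Finset.mul_sum]
      _ = ∑ p, f p * (starRingEnd ℂ) (f p) * N := by
          refine Finset.sum_congr rfl fun p _ => ?_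
          simp only [sum_chi, sub_eq_zero]
          rw [Finset.sum_eq_single p]
          · simp
          · intro q _ hq
            simp [hq]
          · simp
      _ = N * ∑ p, f p * (starRingEnd ℂ) (f p) := by
          rw [← Finset.sum_mul, mul_comm]
  exact_mod_cast h2

/-- Weyl coefficients -/
noncomputable def CC (a : Matrix (ZMod N) (ZMod N) ℂ) (x : ZMod N × ZMod N) : ℂ :=
  ∑ p, a p (p + x.1) * (ZMod.stdAddChar (-(x.2 * p)) : ℂ)

theorem sum_CC (a : Matrix (ZMod N) (ZMod N) ℂ) :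
    ∑ x : ZMod N × ZMod N, ‖CC a x‖ ^ 2 = N * hs a := by
  rw [Fintype.sum_prod_type]
  unfold CC
  simp only
  calc ∑ r : ZMod N, ∑ s : ZMod N, ‖∑ p, a p (p + r) * (ZMod.stdAddChar (-(s * p)) : ℂ)‖ ^ 2
      = ∑ r : ZMod N, (N * ∑ p, ‖a p (p + r)‖ ^ 2 : ℝ) :=
        Finset.sum_congr rfl fun r _ => plancherel (fun p => a p (p + r))
    _ = N * ∑ p, ∑ r : ZMod N, ‖a p (p + r)‖ ^ 2 := by
        rw [← Finset.mul_sum, Finset.sum_comm]
    _ = N * hs a := by
        unfold hs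
        congr 1
        refine Finset.sum_congr rfl fun p _ => ?_
        exact Equiv.sum_comp (Equiv.addLeft p) (fun q => ‖a p q‖ ^ 2)

theorem CC_sub (a b : Matrix (ZMod N) (ZMod N) ℂ) (x : ZMod N × ZMod N) :
    CC (a - b) x = CC a x - CC b x := by
  unfold CC
  rw [← Finset.sum_sub_distrib]
  refine Finset.sum_congr rfl fun p _ => ?_
  rw [Matrix.sub_apply]
  ring

theorem CC_Z (a : Matrix (ZMod N) (ZMod N) ℂ) (x : ZMod N × ZMod N) :
    CC ((wZ N)ᴴ * a * wZ N) x = (ZMod.stdAddChar x.1 : ℂ) * CC a x := by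
  unfold CC
  rw [Finset.mul_sum]
  refine Finset.sum_congr rfl fun p _ => ?_
  unfold wZ
  rw [Matrix.mul_diagonal, Matrix.diagonal_conjTranspose, Matrix.diagonal_mul]
  simp only [Pi.star_apply, RCLike.star_def]
  rw [conj_chi]
  have : (ZMod.stdAddChar x.1 : ℂ) = ZMod.stdAddChar (-p) * ZMod.stdAddChar (p + x.1) := by
    rw [chi_mul]
    congr 1
    ring
  rw [this]
  ring

theorem half_two (hN : Odd N) : (((N + 1) / 2 : ℕ) : ZMod N) * 2 = 1 := by
  obtain ⟨k, hk⟩ := hN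
  have h1 : (N + 1) / 2 * 2 = N + 1 := by omega
  have h2 : ((((N + 1) / 2 * 2 : ℕ)) : ZMod N) = ((N + 1 : ℕ) : ZMod N) := by rw [h1]
  rw [Nat.cast_mul] at h2
  simpa using h2

theorem CC_C (hN : Odd N) (a : Matrix (ZMod N) (ZMod N) ℂ) (x : ZMod N × ZMod N) :
    CC ((wC N)ᴴ * a * wC N) x =
      (ZMod.stdAddChar ((((N + 1) / 2 : ℕ) : ZMod N) * x.1 * x.1) : ℂ) *
        CC a (x.1, x.2 - x.1) := by
  unfold CC
  rw [Finset.mul_sum]
  refine Finset.sum_congr rfl fun p _ => ?_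
  unfold wC
  rw [Matrix.mul_diagonal, Matrix.diagonal_conjTranspose, Matrix.diagonal_mul]
  simp only [Pi.star_apply, RCLike.star_def]
  rw [conj_chi]
  set h : ZMod N := (((N + 1) / 2 : ℕ) : ZMod N) with hh
  have h2 : h * 2 = 1 := half_two hN
  have e1 : (ZMod.stdAddChar (-(h * p * p)) : ℂ) * ZMod.stdAddChar (h * (p + x.1) * (p + x.1)) *
      ZMod.stdAddChar (-(x.2 * p)) =
      ZMod.stdAddChar (h * x.1 * x.1) * ZMod.stdAddChar (-((x.2 - x.1) * p)) := by
    rw [chi_mul, chi_mul, chi_mul]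
    congr 1
    linear_combination (p * x.1) * h2
  linear_combination (a p (p + x.1)) * e1

theorem CC_F (a : Matrix (ZMod N) (ZMod N) ℂ) (x : ZMod N × ZMod N) :
    CC ((wF N)ᴴ * a * wF N) x = (ZMod.stdAddChar (x.1 * x.2) : ℂ) * CC a (x.2, -x.1) := by
  obtain ⟨r, s⟩ := x
  simp only
  have hsq : ((Real.sqrt N : ℝ) : ℂ) * ((Real.sqrt N : ℝ) : ℂ) = N := by
    rw [← Complex.ofReal_mul, Real.mul_self_sqrt (by positivity)]
    simp
  have hN0 : (N : ℂ) ≠ 0 := by exact_mod_cast NeZero.ne N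
  have hs0 : ((Real.sqrt N : ℝ) : ℂ) ≠ 0 := by
    intro h
    rw [h, mul_zero] at hsq
    exact hN0 hsq.symm
  have h1 : ∀ p q : ZMod N, ((wF N)ᴴ * a * wF N) p q =
      (N : ℂ)⁻¹ * ∑ j, ∑ k, a j k * (ZMod.stdAddChar (-(j * p) + k * q) : ℂ) := by
    intro p q
    rw [Matrix.mul_apply]
    simp only [Matrix.mul_apply, Finset.sum_mul]
    rw [Finset.sum_comm, Finset.mul_sum]
    refine Finset.sum_congr rfl fun j _ => ?_
    rw [Finset.mul_sum]
    refine Finset.sum_congr rfl fun k _ => ?_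
    rw [Matrix.conjTranspose_apply]
    unfold wF
    simp only [Matrix.of_apply, RCLike.star_def]
    rw [map_div₀, conj_chi, Complex.conj_ofReal, ← chi_mul]
    rw [← hsq]
    field_simp
  unfold CC
  simp only [h1]
  calc ∑ p, (N : ℂ)⁻¹ * (∑ j, ∑ k, a j k * (ZMod.stdAddChar (-(j * p) + k * (p + r)) : ℂ)) *
        (ZMod.stdAddChar (-(s * p)) : ℂ)
      = (N : ℂ)⁻¹ * ∑ p, ∑ j, ∑ k, a j k * (ZMod.stdAddChar (k * r) : ℂ) *
          (ZMod.stdAddChar (p * (k - j - s)) : ℂ) := by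
        rw [Finset.mul_sum]
        refine Finset.sum_congr rfl fun p _ => ?_
        rw [mul_assoc]
        congr 1
        rw [Finset.sum_mul]
        refine Finset.sum_congr rfl fun j _ => ?_
        rw [Finset.sum_mul]
        refine Finset.sum_congr rfl fun k _ => ?_
        rw [mul_assoc, mul_assoc, chi_mul, chi_mul]
        congr 2
        ring
    _ = (N : ℂ)⁻¹ * ∑ j, ∑ k, a j k * (ZMod.stdAddChar (k * r) : ℂ) *
          ∑ p : ZMod N, (ZMod.stdAddChar (p * (k - j - s)) : ℂ) := by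
        congr 1
        rw [Finset.sum_comm]
        refine Finset.sum_congr rfl fun j _ => ?_
        rw [Finset.sum_comm]
        refine Finset.sum_congr rfl fun k _ => ?_
        rw [Finset.mul_sum]
    _ = (N : ℂ)⁻¹ * ∑ j, a j (j + s) * (ZMod.stdAddChar ((j + s) * r) : ℂ) * N := by
        congr 1
        refine Finset.sum_congr rfl fun j _ => ?_
        simp only [sum_chi]
        rw [Finset.sum_eq_single (j + s)]
        · rw [if_pos (by ring)]
        · intro k _ hk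
          rw [if_neg, mul_zero]
          intro h0
          apply hk
          linear_combination h0
        · simp
    _ = ∑ p, (ZMod.stdAddChar (r * s) : ℂ) * (a p (p + s) * (ZMod.stdAddChar (-(-r * p)) : ℂ)) := by
        rw [Finset.mul_sum]
        refine Finset.sum_congr rfl fun j _ => ?_
        have : (ZMod.stdAddChar ((j + s) * r) : ℂ) =
            ZMod.stdAddChar (r * s) * ZMod.stdAddChar (-(-r * j)) := by
          rw [chi_mul]
          congr 1
          ring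
        rw [this]
        field_simp
    _ = (ZMod.stdAddChar (r * s) : ℂ) * ∑ p, a p (p + s) * (ZMod.stdAddChar (-(-r * p)) : ℂ) := by
        rw [Finset.mul_sum]

/-- `L¹` comparison of squares. -/
theorem L1_bound {X : Type} [Fintype X] (F G : X → ℂ) (M : ℝ)
    (hF : ∑ x, ‖F x‖ ^ 2 ≤ M) (hG : ∑ x, ‖G x‖ ^ 2 ≤ M)
    (h : ∑ x, ‖F x - G x‖ ^ 2 ≤ M / 2500) :
    ∑ x, |‖F x‖ ^ 2 - ‖G x‖ ^ 2| ≤ M / 25 := by
  have h1 : ∀ x, |‖F x‖ ^ 2 - ‖G x‖ ^ 2| ≤
      50 * ‖F x - G x‖ ^ 2 + (1 / 100) * (‖F x‖ ^ 2 + ‖G x‖ ^ 2) := by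
    intro x
    have h2 : |‖F x‖ - ‖G x‖| ≤ ‖F x - G x‖ := abs_norm_sub_norm_le _ _
    have h3 : ‖F x‖ ^ 2 - ‖G x‖ ^ 2 = (‖F x‖ - ‖G x‖) * (‖F x‖ + ‖G x‖) := by ring
    have h4 : 0 ≤ ‖F x‖ + ‖G x‖ := by positivity
    rw [h3, abs_mul, abs_of_nonneg h4]
    have h5 := mul_le_mul_of_nonneg_right h2 h4
    nlinarith [sq_nonneg (100 * ‖F x - G x‖ - (‖F x‖ + ‖G x‖)), sq_nonneg (‖F x‖ - ‖G x‖)]
  calc ∑ x, |‖F x‖ ^ 2 - ‖G x‖ ^ 2|
      ≤ ∑ x, (50 * ‖F x - G x‖ ^ 2 + (1 / 100) * (‖F x‖ ^ 2 + ‖G x‖ ^ 2)) :=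
        Finset.sum_le_sum fun x _ => h1 x
    _ = 50 * ∑ x, ‖F x - G x‖ ^ 2 + (1 / 100) * (∑ x, ‖F x‖ ^ 2 + ∑ x, ‖G x‖ ^ 2) := by
        rw [Finset.sum_add_distrib, ← Finset.mul_sum, ← Finset.mul_sum, Finset.sum_add_distrib]
    _ ≤ M / 25 := by linarith


section mass

open Classical in
/-- truncation to a predicate -/
noncomputable def mi {X : Type} (m : X → ℝ) (P : X → Prop) (x : X) : ℝ := if P x then m x else 0

theorem mi_pos {X : Type} {m : X → ℝ} {P : X → Prop} {x : X} (h : P x) : mi m P x = m x := by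
  unfold mi; rw [if_pos h]

theorem mi_neg {X : Type} {m : X → ℝ} {P : X → Prop} {x : X} (h : ¬ P x) : mi m P x = 0 := by
  unfold mi; rw [if_neg h]

theorem mi_nonneg {X : Type} {m : X → ℝ} (hm : ∀ x, 0 ≤ m x) (P : X → Prop) (x : X) :
    0 ≤ mi m P x := by
  by_cases h : P x
  · rw [mi_pos h]; exact hm x
  · rw [mi_neg h]

/-- mass of a predicate -/
noncomputable def ms {X : Type} [Fintype X] (m : X → ℝ) (P : X → Prop) : ℝ :=
  ∑ x, mi m P x

variable {X : Type} [Fintype X] {m : X → ℝ}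

theorem ms_mono (hm : ∀ x, 0 ≤ m x) {P Q : X → Prop} (h : ∀ x, P x → Q x) : ms m P ≤ ms m Q := by
  unfold ms
  refine Finset.sum_le_sum fun x _ => ?_
  by_cases hP : P x
  · rw [mi_pos hP, mi_pos (h x hP)]
  · rw [mi_neg hP]
    exact mi_nonneg hm _ x

theorem ms_or_le (hm : ∀ x, 0 ≤ m x) (P Q : X → Prop) :
    ms m (fun x => P x ∨ Q x) ≤ ms m P + ms m Q := by
  unfold ms
  rw [← Finset.sum_add_distrib]
  refine Finset.sum_le_sum fun x _ => ?_
  have := hm x
  by_cases hP : P x <;> by_cases hQ : Q x <;> simp [mi, hP, hQ, this]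

theorem ms_or_eq (P Q : X → Prop) (h : ∀ x, ¬ (P x ∧ Q x)) :
    ms m (fun x => P x ∨ Q x) = ms m P + ms m Q := by
  unfold ms
  rw [← Finset.sum_add_distrib]
  refine Finset.sum_congr rfl fun x _ => ?_
  have := h x
  by_cases hP : P x <;> by_cases hQ : Q x <;> simp_all [mi]

theorem ms_step1 {e : ℝ} (hm : ∀ x, 0 ≤ m x) (π : Equiv.Perm X)
    (hπ : ∑ x, |m (π x) - m x| ≤ e) {P Q : X → Prop} (h : ∀ x, P x → Q (π x)) :
    ms m P ≤ ms m Q + e := by
  have h1 : ms m P ≤ ms (fun x => m (π x)) (fun x => Q (π x)) + ∑ x, |m (π x) - m x| := by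
    unfold ms
    rw [← Finset.sum_add_distrib]
    refine Finset.sum_le_sum fun x _ => ?_
    have a1 := abs_nonneg (m (π x) - m x)
    have a2 := neg_abs_le (m (π x) - m x)
    have a3 := hm (π x)
    by_cases hP : P x
    · rw [mi_pos hP, mi_pos (P := fun x => Q (π x)) (h x hP)]
      linarith
    · rw [mi_neg hP]
      have := mi_nonneg (m := fun x => m (π x)) (fun x => hm (π x)) (fun x => Q (π x)) x
      linarith
  have h2 : ms (fun x => m (π x)) (fun x => Q (π x)) = ms m Q := by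
    unfold ms
    exact Equiv.sum_comp π (fun x => mi m Q x)
  linarith

theorem ms_step2 {e : ℝ} (hm : ∀ x, 0 ≤ m x) (π : Equiv.Perm X)
    (hπ : ∑ x, |m (π x) - m x| ≤ e) {P Q : X → Prop} (h : ∀ x, P (π x) → Q x) :
    ms m P ≤ ms m Q + e := by
  have h2 : ms (fun x => m (π x)) (fun x => P (π x)) = ms m P := by
    unfold ms
    exact Equiv.sum_comp π (fun x => mi m P x)
  have h1 : ms (fun x => m (π x)) (fun x => P (π x)) ≤ ms m Q + ∑ x, |m (π x) - m x| := by
    unfold ms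
    rw [← Finset.sum_add_distrib]
    refine Finset.sum_le_sum fun x _ => ?_
    have a1 := abs_nonneg (m (π x) - m x)
    have a2 := le_abs_self (m (π x) - m x)
    have a3 := hm x
    by_cases hP : P (π x)
    · rw [mi_pos (P := fun x => P (π x)) hP, mi_pos (h x hP)]
      linarith
    · rw [mi_neg (P := fun x => P (π x)) hP]
      have := mi_nonneg hm Q x
      linarith
  linarith

end mass

theorem vma_bound (hN : Odd N) (x : ZMod N) :
    -(N : ℤ) < x.valMinAbs * 2 ∧ x.valMinAbs * 2 < (N : ℤ) := by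
  have h := ZMod.valMinAbs_mem_Ioc x
  refine ⟨h.1, lt_of_le_of_ne h.2 ?_⟩
  intro h2
  obtain ⟨k, hk⟩ := hN
  omega

theorem vma_add (hN : Odd N) (r s : ZMod N) (hr : 4 * |r.valMinAbs| < N)
    (hs : 4 * |s.valMinAbs| < N) : (s + r).valMinAbs = s.valMinAbs + r.valMinAbs := by
  rw [ZMod.valMinAbs_spec]
  refine ⟨by push_cast; simp, ?_⟩
  rw [Set.mem_Ioc]
  have h1 := abs_lt.mp (show |r.valMinAbs| < N by have := abs_nonneg r.valMinAbs; omega)
  have h2 := le_abs_self r.valMinAbs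
  have h3 := neg_abs_le r.valMinAbs
  have h4 := le_abs_self s.valMinAbs
  have h5 := neg_abs_le s.valMinAbs
  constructor <;> linarith

theorem vma_sub (hN : Odd N) (r s : ZMod N) (hr : 4 * |r.valMinAbs| < N)
    (hs : 4 * |s.valMinAbs| < N) : (s - r).valMinAbs = s.valMinAbs - r.valMinAbs := by
  rw [ZMod.valMinAbs_spec]
  refine ⟨by push_cast; simp, ?_⟩
  rw [Set.mem_Ioc]
  have h2 := le_abs_self r.valMinAbs
  have h3 := neg_abs_le r.valMinAbs
  have h4 := le_abs_self s.valMinAbs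
  have h5 := neg_abs_le s.valMinAbs
  constructor <;> linarith

theorem vma_neg (hN : Odd N) (r : ZMod N) : (-r).valMinAbs = -r.valMinAbs := by
  rw [ZMod.valMinAbs_spec]
  refine ⟨by push_cast; simp, ?_⟩
  rw [Set.mem_Ioc]
  have h := vma_bound hN r
  constructor <;> linarith [h.1, h.2]

theorem vma_eq_zero (r : ZMod N) (h : r.valMinAbs = 0) : r = 0 := by
  have := ZMod.coe_valMinAbs r
  rw [h] at this
  simpa using this.symm

/-- the shear -/
def piC : Equiv.Perm (ZMod N × ZMod N) where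
  toFun x := (x.1, x.2 - x.1)
  invFun x := (x.1, x.2 + x.1)
  left_inv x := by simp
  right_inv x := by simp

/-- the rotation -/
def piF : Equiv.Perm (ZMod N × ZMod N) where
  toFun x := (x.2, -x.1)
  invFun x := (-x.2, x.1)
  left_inv x := by simp
  right_inv x := by simp

/-- regions -/
def rA (x : ZMod N × ZMod N) : Prop :=
  0 ≤ x.1.valMinAbs * x.2.valMinAbs ∧ |x.2.valMinAbs| < |x.1.valMinAbs|
def rB (x : ZMod N × ZMod N) : Prop :=
  0 < x.1.valMinAbs * x.2.valMinAbs ∧ |x.1.valMinAbs| ≤ |x.2.valMinAbs|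
def rC (x : ZMod N × ZMod N) : Prop :=
  x.1.valMinAbs * x.2.valMinAbs ≤ 0 ∧ |x.1.valMinAbs| < |x.2.valMinAbs|
def rE (x : ZMod N × ZMod N) : Prop :=
  x.1.valMinAbs * x.2.valMinAbs < 0 ∧ |x.2.valMinAbs| ≤ |x.1.valMinAbs|
def bx (x : ZMod N × ZMod N) : Prop :=
  4 * |x.1.valMinAbs| < N ∧ 4 * |x.2.valMinAbs| < N

theorem step_AB (hN : Odd N) (x : ZMod N × ZMod N)
    (h : (rA x ∧ bx x) ∨ (rB x ∧ bx x)) : rB (piC.symm x) := by
  obtain ⟨r, s⟩ := x
  have hb : bx (r, s) := by rcases h with h | h <;> exact h.2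
  have hsum := vma_add hN r s hb.1 hb.2
  change 0 < r.valMinAbs * (s + r).valMinAbs ∧ |r.valMinAbs| ≤ |(s + r).valMinAbs|
  rw [hsum]
  unfold rA rB at h
  simp only at h
  set R := r.valMinAbs
  set S := s.valMinAbs
  rcases h with ⟨⟨h1, h2⟩, -⟩ | ⟨⟨h1, h2⟩, -⟩
  · have hR : R ≠ 0 := by
      intro h0; rw [h0] at h2; simp at h2
      exact absurd h2 (not_lt.mpr (abs_nonneg S))
    have hR2 : 0 < R * R := mul_self_pos.mpr hR
    refine ⟨by nlinarith, ?_⟩
    rw [← sq_le_sq]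
    nlinarith [sq_nonneg S]
  · have hR : R ≠ 0 := by rintro h0; rw [h0] at h1; simp at h1
    have hR2 : 0 < R * R := mul_self_pos.mpr hR
    refine ⟨by nlinarith, ?_⟩
    rw [← sq_le_sq]
    nlinarith [sq_nonneg S]

theorem step_EC (hN : Odd N) (x : ZMod N × ZMod N)
    (h : (rE x ∧ bx x) ∨ (rC x ∧ bx x)) : rC (piC x) := by
  obtain ⟨r, s⟩ := x
  have hb : bx (r, s) := by rcases h with h | h <;> exact h.2
  have hsum := vma_sub hN r s hb.1 hb.2
  change r.valMinAbs * (s - r).valMinAbs ≤ 0 ∧ |r.valMinAbs| < |(s - r).valMinAbs|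
  rw [hsum]
  unfold rE rC at h
  simp only at h
  set R := r.valMinAbs
  set S := s.valMinAbs
  rcases h with ⟨⟨h1, h2⟩, -⟩ | ⟨⟨h1, h2⟩, -⟩
  · refine ⟨by nlinarith [sq_nonneg R], ?_⟩
    rw [← sq_lt_sq]
    nlinarith [sq_nonneg S]
  · have hS : S ≠ 0 := by
      intro h0; rw [h0] at h2; simp at h2
      exact absurd h2 (not_lt.mpr (abs_nonneg R))
    have hS2 : 0 < S * S := mul_self_pos.mpr hS
    refine ⟨by nlinarith [sq_nonneg R], ?_⟩
    rw [← sq_lt_sq]
    nlinarith [sq_nonneg S]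

theorem step_CA (hN : Odd N) (x : ZMod N × ZMod N)
    (h : rC x ∧ bx x) : rA (piF x) ∧ bx (piF x) := by
  obtain ⟨r, s⟩ := x
  have hneg := vma_neg hN r
  unfold rC bx at h
  simp only at h
  change (0 ≤ s.valMinAbs * (-r).valMinAbs ∧ |(-r).valMinAbs| < |s.valMinAbs|) ∧
    (4 * |s.valMinAbs| < N ∧ 4 * |(-r).valMinAbs| < N)
  rw [hneg, abs_neg]
  exact ⟨⟨by nlinarith [h.1.1], h.1.2⟩, h.2.2, h.2.1⟩

theorem step_BE (hN : Odd N) (x : ZMod N × ZMod N)
    (h : rB x ∧ bx x) : rE (piF x) ∧ bx (piF x) := by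
  obtain ⟨r, s⟩ := x
  have hneg := vma_neg hN r
  unfold rB bx at h
  simp only at h
  change (s.valMinAbs * (-r).valMinAbs < 0 ∧ |(-r).valMinAbs| ≤ |s.valMinAbs|) ∧
    (4 * |s.valMinAbs| < N ∧ 4 * |(-r).valMinAbs| < N)
  rw [hneg, abs_neg]
  exact ⟨⟨by nlinarith [h.1.1], h.1.2⟩, h.2.2, h.2.1⟩

theorem cover (x : ZMod N × ZMod N) (h : x ≠ (0, 0)) : (rA x ∨ rB x) ∨ (rC x ∨ rE x) := by
  obtain ⟨r, s⟩ := x
  unfold rA rB rC rE
  simp only
  set R := r.valMinAbs with hR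
  set S := s.valMinAbs with hS
  rcases lt_trichotomy (R * S) 0 with h1 | h1 | h1
  · right
    rcases lt_or_ge |R| |S| with h2 | h2
    · left; exact ⟨h1.le, h2⟩
    · right; exact ⟨h1, h2⟩
  · rcases mul_eq_zero.mp h1 with h2 | h2
    · have hS0 : S ≠ 0 := by
        intro h3
        exact h (by rw [vma_eq_zero r h2, vma_eq_zero s h3])
      right; left
      refine ⟨h1.le, ?_⟩
      rw [h2, abs_zero]
      exact abs_pos.mpr hS0
    · have hR0 : R ≠ 0 := by
        intro h3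
        exact h (by rw [vma_eq_zero r h3, vma_eq_zero s h2])
      left; left
      refine ⟨h1.ge, ?_⟩
      rw [h2, abs_zero]
      exact abs_pos.mpr hR0
  · left
    rcases lt_or_ge |S| |R| with h2 | h2
    · left; exact ⟨h1.le, h2⟩
    · right; exact ⟨h1, h2⟩

/-- the combinatorial core -/
theorem core (hN : Odd N) (m : ZMod N × ZMod N → ℝ) (hm : ∀ x, 0 ≤ m x) (M : ℝ)
    (hM : ∑ x, m x = M)
    (hC : ∑ x, |m (piC x) - m x| ≤ M / 25)
    (hF : ∑ x, |m (piF x) - m x| ≤ M / 25)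
    (hZ : ms m (fun x => (N : ℤ) ≤ 4 * |x.1.valMinAbs|) ≤ M / 5000) :
    M ≤ 2 * m (0, 0) := by
  have hM0 : 0 ≤ M := by rw [← hM]; exact Finset.sum_nonneg fun x _ => hm x
  -- the mass outside the box
  have hS : ms m (fun x => (N : ℤ) ≤ 4 * |x.2.valMinAbs|) ≤ M / 5000 + M / 25 := by
    have h1 := ms_step1 hm piF hF (P := fun x => (N : ℤ) ≤ 4 * |x.2.valMinAbs|)
      (Q := fun x => (N : ℤ) ≤ 4 * |x.1.valMinAbs|) (fun x hx => hx)
    linarith
  have hbx : ms m (fun x => ¬ bx x) ≤ 2 * (M / 5000) + M / 25 := by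
    have h1 : ms m (fun x => ¬ bx x) ≤ ms m (fun x => (N : ℤ) ≤ 4 * |x.1.valMinAbs| ∨
        (N : ℤ) ≤ 4 * |x.2.valMinAbs|) := by
      apply ms_mono hm
      intro x hx
      unfold bx at hx
      by_contra hcon
      push Not at hcon
      exact hx hcon
    have h2 := ms_or_le hm (fun x : ZMod N × ZMod N => (N : ℤ) ≤ 4 * |x.1.valMinAbs|)
      (fun x => (N : ℤ) ≤ 4 * |x.2.valMinAbs|)
    linarith
  have split : ∀ P : ZMod N × ZMod N → Prop, ms m P ≤ ms m (fun x => P x ∧ bx x) +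
      ms m (fun x => ¬ bx x) := by
    intro P
    refine le_trans (ms_mono hm (Q := fun x => (P x ∧ bx x) ∨ ¬ bx x) ?_) (ms_or_le hm _ _)
    intro x hx
    by_cases hb : bx x
    · left; exact ⟨hx, hb⟩
    · right; exact hb
  have q1 : ms m (fun x => rA x ∧ bx x) ≤ 2 * (M / 5000) + M / 25 + M / 25 := by
    have h1 := ms_step2 hm piC hC (P := fun x => (rA x ∧ bx x) ∨ (rB x ∧ bx x)) (Q := rB)
      (fun x hx => by simpa using step_AB hN (piC x) hx)
    rw [ms_or_eq _ _ (by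
      rintro x ⟨⟨h1, -⟩, ⟨h2, -⟩⟩
      unfold rA at h1; unfold rB at h2
      exact absurd h1.2 (not_lt.mpr h2.2))] at h1
    have h2 := split rB
    linarith
  have q2 : ms m (fun x => rE x ∧ bx x) ≤ 2 * (M / 5000) + M / 25 + M / 25 := by
    have h1 := ms_step1 hm piC hC (P := fun x => (rE x ∧ bx x) ∨ (rC x ∧ bx x)) (Q := rC)
      (fun x hx => step_EC hN x hx)
    rw [ms_or_eq _ _ (by
      rintro x ⟨⟨h1, -⟩, ⟨h2, -⟩⟩
      unfold rE at h1; unfold rC at h2
      exact absurd h2.2 (not_lt.mpr h1.2))] at h1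
    have h2 := split rC
    linarith
  have q3 : ms m (fun x => rC x ∧ bx x) ≤ ms m (fun x => rA x ∧ bx x) + M / 25 :=
    ms_step1 hm piF hF (fun x hx => step_CA hN x hx)
  have q4 : ms m (fun x => rB x ∧ bx x) ≤ ms m (fun x => rE x ∧ bx x) + M / 25 :=
    ms_step1 hm piF hF (fun x hx => step_BE hN x hx)
  have htot : M ≤ m (0, 0) + (ms m (fun x => ¬ bx x) + ((ms m (fun x => rA x ∧ bx x) +
      ms m (fun x => rB x ∧ bx x)) + (ms m (fun x => rC x ∧ bx x) +
      ms m (fun x => rE x ∧ bx x)))) := by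
    rw [← hM]
    unfold ms
    rw [← Finset.sum_add_distrib, ← Finset.sum_add_distrib, ← Finset.sum_add_distrib,
      ← Finset.sum_add_distrib]
    rw [← Finset.add_sum_erase _ _ (Finset.mem_univ ((0, 0) : ZMod N × ZMod N))]
    refine add_le_add (le_refl _) ?_
    refine le_trans (Finset.sum_le_sum ?_) (Finset.sum_le_sum_of_subset_of_nonneg
      (Finset.erase_subset (0, 0) Finset.univ) (fun x _ _ => ?_))
    · intro x hx
      have hne : x ≠ (0, 0) := Finset.ne_of_mem_erase hx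
      have hc := cover x hne
      have g1 := mi_nonneg hm (fun x => ¬ bx x) x
      have g2 := mi_nonneg hm (fun x => rA x ∧ bx x) x
      have g3 := mi_nonneg hm (fun x => rB x ∧ bx x) x
      have g4 := mi_nonneg hm (fun x => rC x ∧ bx x) x
      have g5 := mi_nonneg hm (fun x => rE x ∧ bx x) x
      by_cases hb : bx x
      · rcases hc with (h | h) | (h | h)
        · have := mi_pos (m := m) (P := fun x => rA x ∧ bx x) (x := x) ⟨h, hb⟩
          linarith
        · have := mi_pos (m := m) (P := fun x => rB x ∧ bx x) (x := x) ⟨h, hb⟩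
          linarith
        · have := mi_pos (m := m) (P := fun x => rC x ∧ bx x) (x := x) ⟨h, hb⟩
          linarith
        · have := mi_pos (m := m) (P := fun x => rE x ∧ bx x) (x := x) ⟨h, hb⟩
          linarith
      · have := mi_pos (m := m) (P := fun x => ¬ bx x) (x := x) hb
        linarith
    · have g1 := mi_nonneg hm (fun x => ¬ bx x) x
      have g2 := mi_nonneg hm (fun x => rA x ∧ bx x) x
      have g3 := mi_nonneg hm (fun x => rB x ∧ bx x) x
      have g4 := mi_nonneg hm (fun x => rC x ∧ bx x) x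
      have g5 := mi_nonneg hm (fun x => rE x ∧ bx x) x
      linarith
  linarith


theorem chi_far (r : ZMod N) (h : (N : ℤ) ≤ 4 * |r.valMinAbs|) :
    2 ≤ ‖(ZMod.stdAddChar r : ℂ) - 1‖ ^ 2 := by
  have hN0 : (0 : ℝ) < N := by exact_mod_cast Nat.pos_of_ne_zero (NeZero.ne N)
  set R : ℤ := r.valMinAbs with hR
  have hr : r = (R : ZMod N) := (ZMod.coe_valMinAbs r).symm
  set θ : ℝ := 2 * Real.pi * R / N with hθ
  have h1 : (ZMod.stdAddChar r : ℂ) = Complex.exp (θ * Complex.I) := by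
    rw [hr, ZMod.stdAddChar_coe]
    congr 1
    rw [hθ]
    push_cast
    ring
  have h2 : ‖Complex.exp (θ * Complex.I) - 1‖ ^ 2 = 2 - 2 * Real.cos θ := by
    rw [← Complex.normSq_eq_norm_sq, Complex.normSq_apply]
    simp only [Complex.sub_re, Complex.sub_im, Complex.one_re, Complex.one_im,
      Complex.exp_ofReal_mul_I_re, Complex.exp_ofReal_mul_I_im]
    nlinarith [Real.sin_sq_add_cos_sq θ]
  rw [h1, h2]
  have hcos : Real.cos θ ≤ 0 := by
    rw [← Real.cos_abs]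
    have habs : |θ| = 2 * Real.pi * |(R : ℝ)| / N := by
      rw [hθ, abs_div, abs_mul, abs_of_pos (by positivity : (0 : ℝ) < 2 * Real.pi),
        abs_of_pos hN0]
    have hRN : (N : ℝ) ≤ 4 * |(R : ℝ)| := by exact_mod_cast h
    have hup := ZMod.valMinAbs_mem_Ioc r
    rw [← hR] at hup
    have hRN2 : 2 * |(R : ℝ)| ≤ N := by
      have h3 : |R| * 2 ≤ N := by
        rcases abs_cases R with ⟨h4, -⟩ | ⟨h4, -⟩
        · rw [h4]; exact hup.2
        · rw [h4]; have := hup.1; linarith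
      have h5 : |(R : ℝ)| * 2 ≤ N := by exact_mod_cast h3
      linarith
    apply Real.cos_nonpos_of_pi_div_two_le_of_le
    · rw [habs, le_div_iff₀ hN0]
      nlinarith [Real.pi_pos]
    · rw [habs, div_le_iff₀ hN0]
      nlinarith [Real.pi_pos]
  linarith

end chars

/-- TARGET. Quantum Margulis expander: a matrix almost commuting with the three unitaries has a
large trace. -/
theorem qe (N : ℕ) [NeZero N] (hN : Odd N) (a : Matrix (ZMod N) (ZMod N) ℂ)
    (hZ : hs ((wZ N)ᴴ * a * wZ N - a) ≤ (1 / 2500) * hs a)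
    (hC : hs ((wC N)ᴴ * a * wC N - a) ≤ (1 / 2500) * hs a)
    (hF : hs ((wF N)ᴴ * a * wF N - a) ≤ (1 / 2500) * hs a) :
    (N : ℝ) * hs a ≤ 2 * ‖a.trace‖ ^ 2 := by
  have hN0 : (0 : ℝ) < N := by exact_mod_cast Nat.pos_of_ne_zero (NeZero.ne N)
  set M : ℝ := N * hs a with hM
  set m : ZMod N × ZMod N → ℝ := fun x => ‖CC a x‖ ^ 2 with hm
  have hm0 : ∀ x, 0 ≤ m x := fun x => by positivity
  have hsum : ∑ x, m x = M := sum_CC a
  have gen : ∀ (w : Matrix (ZMod N) (ZMod N) ℂ), hs (wᴴ * a * w - a) ≤ (1 / 2500) * hs a →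
      ∑ x, ‖CC (wᴴ * a * w) x - CC a x‖ ^ 2 ≤ M / 2500 := by
    intro w hw
    have h1 := sum_CC (wᴴ * a * w - a)
    simp only [CC_sub] at h1
    rw [h1, hM]
    calc (N : ℝ) * hs (wᴴ * a * w - a) ≤ N * ((1 / 2500) * hs a) := by gcongr
      _ = N * hs a / 2500 := by ring
  have tr : m (0, 0) = ‖a.trace‖ ^ 2 := by
    rw [hm]
    simp only
    unfold CC
    simp [Matrix.trace]
  rw [← tr]
  apply core hN m hm0 M hsum
  · -- the shear
    have h1 := gen _ hC
    have hperm : ∑ x, ‖CC ((wC N)ᴴ * a * wC N) x‖ ^ 2 = M := by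
      simp only [CC_C hN, norm_mul, norm_chi, one_mul]
      rw [← hsum]
      exact Equiv.sum_comp piC m
    have h2 := L1_bound (fun x => CC ((wC N)ᴴ * a * wC N) x) (fun x => CC a x) M hperm.le hsum.le h1
    simp only [CC_C hN, norm_mul, norm_chi, one_mul] at h2
    exact h2
  · have h1 := gen _ hF
    have hperm : ∑ x, ‖CC ((wF N)ᴴ * a * wF N) x‖ ^ 2 = M := by
      simp only [CC_F, norm_mul, norm_chi, one_mul]
      rw [← hsum]
      exact Equiv.sum_comp piF m
    have h2 := L1_bound (fun x => CC ((wF N)ᴴ * a * wF N) x) (fun x => CC a x) M hperm.le hsum.le h1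
    simp only [CC_F, norm_mul, norm_chi, one_mul] at h2
    exact h2
  · have h1 := gen _ hZ
    simp only [CC_Z] at h1
    have h2 : 2 * ms m (fun x => (N : ℤ) ≤ 4 * |x.1.valMinAbs|) ≤ M / 2500 := by
      refine le_trans ?_ h1
      unfold ms
      rw [Finset.mul_sum]
      refine Finset.sum_le_sum fun x _ => ?_
      have e1 : (ZMod.stdAddChar x.1 : ℂ) * CC a x - CC a x =
          ((ZMod.stdAddChar x.1 : ℂ) - 1) * CC a x := by ring
      rw [e1, norm_mul, mul_pow]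
      by_cases hx : (N : ℤ) ≤ 4 * |x.1.valMinAbs|
      · rw [mi_pos (P := fun x : ZMod N × ZMod N => (N : ℤ) ≤ 4 * |x.1.valMinAbs|) hx]
        exact mul_le_mul_of_nonneg_right (chi_far x.1 hx) (by positivity)
      · rw [mi_neg (P := fun x : ZMod N × ZMod N => (N : ℤ) ≤ 4 * |x.1.valMinAbs|) hx]
        rw [mul_zero]
        positivity
    linarith

end Pool.Agent.Helper965.O2
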