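import Pool.Agent.Helper965.O2.Base
import Pool.Agent.Helper965.O2.PS
import Pool.Agent.Helper965.O2.QE
import Pool.Agent.Helper965.O2.Good

set_option autoImplicit false
set_option linter.unusedSectionVars false

open scoped BigOperators Matrix ComplexOrder InnerProductSpace

namespace Pool.Agent.Helper965.O2

/-- Scalar version: no low-dimensional intertwiner. -/
lemma scalar_key {κ : Type} [Fintype κ] [DecidableEq κ] (k : ℕ) (hk : Fintype.card κ ≤ k)
    (x : Fin 3 → Matrix κ κ ℂ) (y : Matrix κ (ZMod (2 * k + 1)) ℂ)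
    (h1 : ∀ i, hs (x i * y - y * w (2 * k + 1) i) ≤ (1 / 5000) ^ 2 * hs y)
    (h2 : ∀ i, hs ((x i)ᴴ * y - y * (w (2 * k + 1) i)ᴴ) ≤ (1 / 5000) ^ 2 * hs y) :
    hs y = 0 := by
  obtain ⟨a, ha, hay, hsa⟩ := exists_sqrt y
  have h3 : ∀ i, hs ((w (2 * k + 1) i)ᴴ * a * w (2 * k + 1) i - a) ≤ (1 / 2500) * hs a := by
    intro i
    have := ps a (w (2 * k + 1) i) y (x i) ha hay (w_mem _ i) (1 / 5000) (by norm_num) (h1 i) (h2 i)
    rw [hsa]
    linarith
  have h4 := qe (2 * k + 1) ⟨k, rfl⟩ a (h3 0) (h3 1) (h3 2)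
  have h5 := trace_le_card a y ha hay
  have h6 : (Fintype.card κ : ℝ) * hs a ≤ k * hs a := by
    have := hs_nonneg a
    have hk' : (Fintype.card κ : ℝ) ≤ k := by exact_mod_cast hk
    gcongr
  push_cast at h4
  have h7 := hs_nonneg a
  rw [← hsa]
  nlinarith

section vec

variable {H : Type} [NormedAddCommGroup H] [InnerProductSpace ℂ H]

/-- Vector version. -/
lemma vector_key {κ : Type} [Fintype κ] [DecidableEq κ] (k : ℕ) (hk : Fintype.card κ ≤ k)
    (x : Fin 3 → Matrix κ κ ℂ) (h : ZMod (2 * k + 1) → κ → H) (τ : ℝ) (hτ : 6 * τ < (1 / 5000) ^ 2)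
    (h1 : ∀ i, ∑ q, nrm (act (x i) (h q) - ∑ p, w (2 * k + 1) i p q • h p) ^ 2
      ≤ τ * ∑ q, nrm (h q) ^ 2)
    (h2 : ∀ i, ∑ q, nrm (act (x i)ᴴ (h q) - ∑ p, (w (2 * k + 1) i)ᴴ p q • h p) ^ 2
      ≤ τ * ∑ q, nrm (h q) ^ 2) :
    ∑ q, nrm (h q) ^ 2 = 0 := by
  classical
  let E : Submodule ℂ H := Submodule.span ℂ (Set.range fun z : ZMod (2 * k + 1) × κ => h z.1 z.2)
  have hmem : ∀ q j, h q j ∈ E := fun q j => Submodule.subset_span ⟨(q, j), rfl⟩
  have : FiniteDimensional ℂ E := FiniteDimensional.span_of_finite ℂ (Set.finite_range _)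
  let b := stdOrthonormalBasis ℂ E
  let y : Fin (Module.finrank ℂ E) → Matrix κ (ZMod (2 * k + 1)) ℂ :=
    fun e => Matrix.of fun j q => inner ℂ (b e : H) (h q j)
  have hpars : ∀ v ∈ E, ∑ e, ‖inner ℂ (b e : H) v‖ ^ 2 = ‖v‖ ^ 2 := by
    intro v hv
    have := b.sum_sq_norm_inner_right ⟨v, hv⟩
    simpa using this
  -- norms
  have hsum : ∑ q, nrm (h q) ^ 2 = ∑ e, hs (y e) := by
    have e1 : ∀ q, nrm (h q) ^ 2 = ∑ j, ∑ e, ‖inner ℂ (b e : H) (h q j)‖ ^ 2 := by
      intro q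
      rw [nrm_sq]
      exact Finset.sum_congr rfl fun j _ => (hpars _ (hmem q j)).symm
    simp only [e1, hs, y, Matrix.of_apply]
    rw [Finset.sum_comm]
    rw [Finset.sum_congr rfl fun j _ => Finset.sum_comm]
    rw [Finset.sum_comm]
  -- defects
  have hdef : ∀ (X : Matrix κ κ ℂ) (W : Matrix (ZMod (2 * k + 1)) (ZMod (2 * k + 1)) ℂ),
      ∑ q, nrm (act X (h q) - ∑ p, W p q • h p) ^ 2 = ∑ e, hs (X * y e - y e * W) := by
    intro X W
    have hm : ∀ q j, (act X (h q) - ∑ p, W p q • h p) j ∈ E := by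
      intro q j
      rw [Pi.sub_apply, Finset.sum_apply]
      refine E.sub_mem (E.sum_mem fun _ _ => E.smul_mem _ (hmem _ _))
        (E.sum_mem fun _ _ => E.smul_mem _ (hmem _ _))
    have hi : ∀ e q j, inner ℂ (b e : H) ((act X (h q) - ∑ p, W p q • h p) j) =
        (X * y e - y e * W) j q := by
      intro e q j
      rw [Pi.sub_apply, Finset.sum_apply, inner_sub_right, act, inner_sum, inner_sum,
        Matrix.sub_apply, Matrix.mul_apply, Matrix.mul_apply]
      congr 1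
      · refine Finset.sum_congr rfl fun l _ => ?_
        rw [inner_smul_right]; rfl
      · refine Finset.sum_congr rfl fun l _ => ?_
        rw [Pi.smul_apply, inner_smul_right, mul_comm]; rfl
    have e1 : ∀ q, nrm (act X (h q) - ∑ p, W p q • h p) ^ 2 =
        ∑ j, ∑ e, ‖(X * y e - y e * W) j q‖ ^ 2 := by
      intro q
      rw [nrm_sq]
      refine Finset.sum_congr rfl fun j _ => ?_
      rw [← hpars _ (hm q j)]
      exact Finset.sum_congr rfl fun e _ => by rw [hi]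
    simp only [e1, hs]
    rw [Finset.sum_comm]
    rw [Finset.sum_congr rfl fun j _ => Finset.sum_comm]
    rw [Finset.sum_comm]
  -- for each e the total defect is at least (1/5000)^2 hs
  have hlow : ∀ e, (1 / 5000 : ℝ) ^ 2 * hs (y e) ≤
      ∑ i, hs (x i * y e - y e * w (2 * k + 1) i) +
      ∑ i, hs ((x i)ᴴ * y e - y e * (w (2 * k + 1) i)ᴴ) := by
    intro e
    by_contra hcon
    push Not at hcon
    have hA : ∀ i, hs (x i * y e - y e * w (2 * k + 1) i) ≤
        ∑ i, hs (x i * y e - y e * w (2 * k + 1) i) := fun i =>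
      Finset.single_le_sum (f := fun i => hs (x i * y e - y e * w (2 * k + 1) i))
        (fun _ _ => hs_nonneg _) (Finset.mem_univ i)
    have hB : ∀ i, hs ((x i)ᴴ * y e - y e * (w (2 * k + 1) i)ᴴ) ≤
        ∑ i, hs ((x i)ᴴ * y e - y e * (w (2 * k + 1) i)ᴴ) := fun i =>
      Finset.single_le_sum (f := fun i => hs ((x i)ᴴ * y e - y e * (w (2 * k + 1) i)ᴴ))
        (fun _ _ => hs_nonneg _) (Finset.mem_univ i)
    have hA0 : 0 ≤ ∑ i, hs (x i * y e - y e * w (2 * k + 1) i) :=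
      Finset.sum_nonneg fun _ _ => hs_nonneg _
    have hB0 : 0 ≤ ∑ i, hs ((x i)ᴴ * y e - y e * (w (2 * k + 1) i)ᴴ) :=
      Finset.sum_nonneg fun _ _ => hs_nonneg _
    have hz := scalar_key k hk x (y e) (fun i => by linarith [hA i]) (fun i => by linarith [hB i])
    rw [hz] at hcon
    linarith
  have htot : (1 / 5000 : ℝ) ^ 2 * ∑ e, hs (y e) ≤ 6 * (τ * ∑ e, hs (y e)) := by
    calc (1 / 5000 : ℝ) ^ 2 * ∑ e, hs (y e) = ∑ e, (1 / 5000 : ℝ) ^ 2 * hs (y e) :=
          Finset.mul_sum _ _ _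
      _ ≤ ∑ e, (∑ i, hs (x i * y e - y e * w (2 * k + 1) i) +
            ∑ i, hs ((x i)ᴴ * y e - y e * (w (2 * k + 1) i)ᴴ)) :=
          Finset.sum_le_sum fun e _ => hlow e
      _ = ∑ i, ∑ e, hs (x i * y e - y e * w (2 * k + 1) i) +
            ∑ i, ∑ e, hs ((x i)ᴴ * y e - y e * (w (2 * k + 1) i)ᴴ) := by
          rw [Finset.sum_add_distrib, Finset.sum_comm, Finset.sum_comm (f := fun e i =>
            hs ((x i)ᴴ * y e - y e * (w (2 * k + 1) i)ᴴ))]
      _ ≤ ∑ _i : Fin 3, τ * ∑ e, hs (y e) + ∑ _i : Fin 3, τ * ∑ e, hs (y e) := by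
          refine add_le_add (Finset.sum_le_sum fun i _ => ?_) (Finset.sum_le_sum fun i _ => ?_)
          · rw [← hdef, ← hsum]; exact h1 i
          · rw [← hdef, ← hsum]; exact h2 i
      _ = 6 * (τ * ∑ e, hs (y e)) := by
          simp only [Finset.sum_const, Finset.card_univ, Fintype.card_fin, nsmul_eq_mul]
          push_cast; ring
  rw [hsum]
  have h0 : 0 ≤ ∑ e, hs (y e) := Finset.sum_nonneg fun _ _ => hs_nonneg _
  nlinarith

end vec


section op

variable {H : Type} [NormedAddCommGroup H] [InnerProductSpace ℂ H] [CompleteSpace H]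
  {S : Bool → H →L[ℂ] H}

/-- Compression close to a unitary gives an approximate intertwiner. -/
lemma compress {V c : H →L[ℂ] H} (hV : ‖V‖ ≤ 1) (hc : ‖c‖ ≤ 1) {ξ ζ : H} (hξ : ‖ξ‖ = 1)
    (hζ : ‖ζ‖ = 1) {ε : ℝ} (h : ‖(star c * V * c) ξ - ζ‖ ≤ ε) :
    ‖V (c ξ) - c ζ‖ ^ 2 ≤ 2 * ε ∧ 1 - ε ≤ ‖c ξ‖ := by
  have hcx : ‖c ξ‖ ≤ 1 := (c.le_opNorm ξ).trans (by rw [hξ, mul_one]; exact hc)
  have hcz : ‖c ζ‖ ≤ 1 := (c.le_opNorm ζ).trans (by rw [hζ, mul_one]; exact hc)
  have hVcx : ‖V (c ξ)‖ ≤ ‖c ξ‖ :=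
    (V.le_opNorm _).trans (by nlinarith [norm_nonneg (c ξ)])
  have h1 : 1 - ε ≤ RCLike.re (inner ℂ (V (c ξ)) (c ζ)) := by
    have e1 : inner ℂ (V (c ξ)) (c ζ) = inner ℂ ((star c * V * c) ξ) ζ := by
      have : (star c * V * c) ξ = ContinuousLinearMap.adjoint c (V (c ξ)) := rfl
      rw [this, ContinuousLinearMap.adjoint_inner_left]
    have e2 : inner ℂ ((star c * V * c) ξ) ζ =
        inner ℂ ((star c * V * c) ξ - ζ) ζ + inner ℂ ζ ζ := by
      rw [← inner_add_left, sub_add_cancel]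
    rw [e1, e2, map_add, inner_self_eq_norm_sq, hζ]
    have e3 : |RCLike.re (inner ℂ ((star c * V * c) ξ - ζ) ζ : ℂ)| ≤ ε := by
      calc _ ≤ ‖(inner ℂ ((star c * V * c) ξ - ζ) ζ : ℂ)‖ := RCLike.abs_re_le_norm _
        _ ≤ ‖(star c * V * c) ξ - ζ‖ * ‖ζ‖ := norm_inner_le_norm _ _
        _ ≤ ε := by rw [hζ, mul_one]; exact h
    have := (abs_le.1 e3).1
    linarith
  constructor
  · rw [@norm_sub_sq ℂ]
    have h2 : ‖V (c ξ)‖ ^ 2 ≤ 1 := pow_le_one₀ (norm_nonneg _) (hVcx.trans hcx)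
    have h3 : ‖c ζ‖ ^ 2 ≤ 1 := pow_le_one₀ (norm_nonneg _) hcz
    linarith
  · have h4 : RCLike.re (inner ℂ (V (c ξ)) (c ζ)) ≤ ‖c ξ‖ := by
      calc RCLike.re (inner ℂ (V (c ξ)) (c ζ)) ≤ ‖(inner ℂ (V (c ξ)) (c ζ) : ℂ)‖ :=
            RCLike.re_le_norm _
        _ ≤ ‖V (c ξ)‖ * ‖c ζ‖ := norm_inner_le_norm _ _
        _ ≤ ‖c ξ‖ * 1 := mul_le_mul hVcx hcz (norm_nonneg _) (norm_nonneg _)
        _ = _ := mul_one _
    linarith

/-- The operator attached to a matrix by a family of isometries. -/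
noncomputable def emb {ι : Type} [Fintype ι] (t : ι → (H →L[ℂ] H)) (W : Matrix ι ι ℂ) :
    H →L[ℂ] H := ∑ p, ∑ q, W p q • (t p * star (t q))

variable {ι : Type} [Fintype ι] [DecidableEq ι] {t : ι → (H →L[ℂ] H)}

lemma emb_apply (ht : ∀ p q, star (t p) * t q = if p = q then 1 else 0) (W : Matrix ι ι ℂ)
    (η : H) (q : ι) : emb t W (t q η) = ∑ p, W p q • t p η := by
  unfold emb
  rw [_root_.sum_apply]
  refine Finset.sum_congr rfl fun p _ => ?_
  rw [_root_.sum_apply, Finset.sum_eq_single q]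
  · have : (W p q • (t p * star (t q))) (t q η) = W p q • t p ((star (t q) * t q) η) := rfl
    rw [this, ht]; simp
  · intro q' _ hq'
    have : (W p q' • (t p * star (t q'))) (t q η) = W p q' • t p ((star (t q') * t q) η) := rfl
    rw [this, ht, if_neg hq']; simp
  · simp

lemma star_emb (W : Matrix ι ι ℂ) : star (emb t W) = emb t Wᴴ := by
  unfold emb
  simp only [star_sum, star_smul, star_mul, star_star, Matrix.conjTranspose_apply]
  exact Finset.sum_comm

lemma norm_sum_t (ht : ∀ p q, star (t p) * t q = if p = q then 1 else 0) {η : H} (hη : ‖η‖ = 1)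
    (v : ι → ℂ) : ‖∑ p, v p • t p η‖ ^ 2 = ∑ p, ‖v p‖ ^ 2 := by
  have hi : ∀ p q, inner ℂ (t p η) (t q η) = if p = q then (1 : ℂ) else 0 := by
    intro p q
    have : inner ℂ (t p η) (t q η) = inner ℂ η ((star (t p) * t q) η) := by
      have e : (star (t p) * t q) η = ContinuousLinearMap.adjoint (t p) (t q η) := rfl
      rw [e, ContinuousLinearMap.adjoint_inner_right]
    rw [this, ht]
    split_ifs
    · rw [one_apply_eq_self, inner_self_eq_norm_sq_to_K, hη]; simp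
    · simp
  have h1 : (inner ℂ (∑ p, v p • t p η) (∑ p, v p • t p η) : ℂ) = ((∑ p, ‖v p‖ ^ 2 : ℝ) : ℂ) := by
    rw [sum_inner]
    push_cast
    refine Finset.sum_congr rfl fun p _ => ?_
    rw [inner_sum, Finset.sum_eq_single p]
    · rw [inner_smul_left, inner_smul_right, hi, if_pos rfl, mul_one]
      rw [← Complex.normSq_eq_conj_mul_self, Complex.normSq_eq_norm_sq]
      push_cast; rfl
    · intro q _ hq
      rw [inner_smul_left, inner_smul_right, hi, if_neg (Ne.symm hq)]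
      simp
    · simp
  rw [inner_self_eq_norm_sq_to_K] at h1
  apply Complex.ofReal_injective
  rw [← h1]
  push_cast
  rfl

lemma norm_col (ht : ∀ p q, star (t p) * t q = if p = q then 1 else 0) {η : H} (hη : ‖η‖ = 1)
    {W : Matrix ι ι ℂ} (hW : W ∈ Matrix.unitaryGroup ι ℂ) (q : ι) :
    ‖∑ p, W p q • t p η‖ = 1 := by
  have h1 := norm_sum_t ht hη (fun p => W p q)
  have h2 : ∑ p, ‖W p q‖ ^ 2 = 1 := by
    have h3 := Matrix.mem_unitaryGroup_iff'.1 hW
    have h4 : (star W * W) q q = 1 := by rw [h3]; simp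
    rw [Matrix.mul_apply] at h4
    have h5 : ((∑ p, ‖W p q‖ ^ 2 : ℝ) : ℂ) = 1 := by
      rw [← h4]
      push_cast
      refine Finset.sum_congr rfl fun p _ => ?_
      rw [Matrix.star_apply, Complex.star_def, ← Complex.normSq_eq_conj_mul_self,
        Complex.normSq_eq_norm_sq]
      push_cast; rfl
    exact_mod_cast h5
  rw [h2] at h1
  have := norm_nonneg (∑ p, W p q • t p η)
  nlinarith

/-- **Key lemma.** No triple of contractions of the Cuntz algebra dominates all the quantum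
expanders. -/
theorem key [Nontrivial H] (hS : IsCuntz S) (V : Fin 3 → (H →L[ℂ] H))
    (hV : ∀ i, V i ∈ (StarAlgebra.adjoin ℂ (Set.range S)).topologicalClosure)
    (hn : ∀ i, ‖V i‖ ≤ 1) :
    ∃ k : ℕ, ∀ c : H →L[ℂ] H, ‖c‖ ≤ 1 → ∀ t : ZMod (2 * k + 1) → (H →L[ℂ] H),
      (∀ p q, star (t p) * t q = if p = q then 1 else 0) →
      ¬ ∀ i, ‖star c * V i * c - emb t (w (2 * k + 1) i)‖ ≤ 1 / 10 ^ 10 := by
  -- polynomial approximants
  have happ : ∀ i, ∃ P : H →L[ℂ] H, ‖V i - P‖ ≤ 1 / 10 ^ 5 ∧ Good S P := by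
    intro i
    have h1 : V i ∈ closure ((StarAlgebra.adjoin ℂ (Set.range S) : StarSubalgebra ℂ (H →L[ℂ] H)) :
        Set (H →L[ℂ] H)) := hV i
    obtain ⟨P, hP, hd⟩ := Metric.mem_closure_iff.1 h1 (1 / 10 ^ 5) (by norm_num)
    exact ⟨P, by rw [← dist_eq_norm]; exact hd.le, hS.good_adjoin hP⟩
  choose P hP hG using happ
  choose C hC hG using hG
  -- the level
  obtain ⟨m, hm⟩ := exists_nat_ge (((C 0 + C 1 + C 2) * 10 ^ 5) ^ 2 + 1)
  have hm1 : (1 : ℝ) ≤ m := le_trans (by nlinarith [sq_nonneg ((C 0 + C 1 + C 2) * 10 ^ 5)]) hm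
  have hCm : ∀ i, C i ≤ 1 / 10 ^ 5 * Real.sqrt m := by
    intro i
    have h1 : (C 0 + C 1 + C 2) * 10 ^ 5 ≤ Real.sqrt m := by
      apply Real.le_sqrt_of_sq_le
      linarith
    have h2 : C i ≤ C 0 + C 1 + C 2 := by
      have h0 := hC 0; have h1 := hC 1; have h2 := hC 2
      fin_cases i <;> simp <;> linarith
    linarith
  choose x hx1 hx2 hx3 hx4 using fun i => hG i m
  refine ⟨Fintype.card (wds m), ?_⟩
  set k := Fintype.card (wds m) with hk
  intro c hc t ht hcon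
  obtain ⟨η, hη⟩ : ∃ η : H, ‖η‖ = 1 := exists_norm_eq H zero_le_one
  have hξ : ∀ q, ‖t q η‖ = 1 := fun q => by
    rw [norm_of_iso (by rw [ht]; simp) η, hη]
  -- main estimates for `V i` and for `star (V i)`
  have hmain : ∀ (U Q : H →L[ℂ] H) (X : Matrix (wds m) (wds m) ℂ) (i : Fin 3)
      (W : Matrix (ZMod (2 * k + 1)) (ZMod (2 * k + 1)) ℂ),
      W ∈ Matrix.unitaryGroup _ ℂ → ‖U‖ ≤ 1 → ‖U - Q‖ ≤ 1 / 10 ^ 5 →
      (∀ g : H, nrm (R S m (Q g) - act X (R S m g)) ≤ C i * ‖g‖) →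
      ‖star c * U * c - emb t W‖ ≤ 1 / 10 ^ 10 → ∀ q,
      nrm (act X (R S m (c (t q η))) - ∑ p, W p q • R S m (c (t p η))) ^ 2 ≤
        1 / (3 * 10 ^ 8) * m ∧ 99 / 100 ≤ ‖c (t q η)‖ := by
    intro U Q X i W hW hU hUQ hQ hcW q
    have hζ := norm_col ht hη hW q
    have h1 : ‖(star c * U * c) (t q η) - ∑ p, W p q • t p η‖ ≤ 1 / 10 ^ 10 := by
      rw [← emb_apply ht W η q, ← _root_.sub_apply]
      refine (ContinuousLinearMap.le_opNorm _ _).trans ?_
      rw [hξ, mul_one]; exact hcW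
    obtain ⟨h2, h3⟩ := compress hU hc (hξ q) hζ h1
    have hcx : ‖c (t q η)‖ ≤ 1 := (c.le_opNorm _).trans (by rw [hξ, mul_one]; exact hc)
    have h4 : ‖U (c (t q η)) - c (∑ p, W p q • t p η)‖ ≤ 1 / (6 * 10 ^ 4) := by
      apply le_of_sq_le_sq _ (by positivity)
      refine h2.trans ?_
      norm_num
    have e1 : ∑ p, W p q • R S m (c (t p η)) = R S m (c (∑ p, W p q • t p η)) := by
      rw [map_sum]
      have : ∀ s : Finset (ZMod (2 * k + 1)), R S m (∑ p ∈ s, c (W p q • t p η)) =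
          ∑ p ∈ s, W p q • R S m (c (t p η)) := by
        intro s
        induction s using Finset.induction_on with
        | empty =>
          ext β; simp [R]
        | insert a s ha ih =>
          rw [Finset.sum_insert ha, Finset.sum_insert ha, R_add, ih, map_smul, R_smul]
      exact (this _).symm
    have e2 : act X (R S m (c (t q η))) - ∑ p, W p q • R S m (c (t p η)) =
        (-1 : ℂ) • (R S m (Q (c (t q η))) - act X (R S m (c (t q η)))) +
        ((-1 : ℂ) • R S m ((U - Q) (c (t q η))) +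
        R S m (U (c (t q η)) - c (∑ p, W p q • t p η))) := by
      rw [e1, _root_.sub_apply, R_sub, R_sub]
      ext β
      simp only [Pi.sub_apply, Pi.add_apply, neg_smul, one_smul, Pi.neg_apply]
      abel
    have h5 : nrm (act X (R S m (c (t q η))) - ∑ p, W p q • R S m (c (t p η))) ≤
        (1 / (26 * 10 ^ 3)) * Real.sqrt m := by
      rw [e2]
      have k1 : nrm ((-1 : ℂ) • (R S m (Q (c (t q η))) - act X (R S m (c (t q η))))) ≤
          1 / 10 ^ 5 * Real.sqrt m := by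
        rw [nrm_smul, norm_neg, norm_one, one_mul]
        calc _ ≤ C i * ‖c (t q η)‖ := hQ _
          _ ≤ C i * 1 := by
            have := hC i
            gcongr
          _ = C i := mul_one _
          _ ≤ _ := hCm i
      have k2 : nrm ((-1 : ℂ) • R S m ((U - Q) (c (t q η)))) ≤ 1 / 10 ^ 5 * Real.sqrt m := by
        rw [nrm_smul, norm_neg, norm_one, one_mul, hS.nrm_R, mul_comm]
        have : ‖(U - Q) (c (t q η))‖ ≤ 1 / 10 ^ 5 := by
          refine (ContinuousLinearMap.le_opNorm _ _).trans ?_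
          calc ‖U - Q‖ * ‖c (t q η)‖ ≤ 1 / 10 ^ 5 * 1 := by gcongr
            _ = _ := mul_one _
        gcongr
      have k3 : nrm (R S m (U (c (t q η)) - c (∑ p, W p q • t p η))) ≤
          1 / (6 * 10 ^ 4) * Real.sqrt m := by
        rw [hS.nrm_R, mul_comm]
        gcongr
      have k4 := nrm_add_le ((-1 : ℂ) • (R S m (Q (c (t q η))) - act X (R S m (c (t q η)))))
        ((-1 : ℂ) • R S m ((U - Q) (c (t q η))) +
        R S m (U (c (t q η)) - c (∑ p, W p q • t p η)))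
      have k5 := nrm_add_le ((-1 : ℂ) • R S m ((U - Q) (c (t q η))))
        (R S m (U (c (t q η)) - c (∑ p, W p q • t p η)))
      have k6 := Real.sqrt_nonneg m
      have k7 : (1 / 10 ^ 5 : ℝ) * Real.sqrt m + (1 / 10 ^ 5 * Real.sqrt m +
          1 / (6 * 10 ^ 4) * Real.sqrt m) ≤ (1 / (26 * 10 ^ 3)) * Real.sqrt m := by
        have : (1 / 10 ^ 5 : ℝ) + (1 / 10 ^ 5 + 1 / (6 * 10 ^ 4)) ≤ 1 / (26 * 10 ^ 3) := by
          norm_num
        nlinarith
      linarith
    refine ⟨?_, by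
      have : (1 / 10 ^ 10 : ℝ) ≤ 1 / 100 := by norm_num
      linarith⟩
    calc _ ≤ ((1 / (26 * 10 ^ 3)) * Real.sqrt m) ^ 2 :=
          pow_le_pow_left₀ (nrm_nonneg _) h5 2
      _ = (1 / (26 * 10 ^ 3)) ^ 2 * m := by
          rw [mul_pow, Real.sq_sqrt (Nat.cast_nonneg m)]
      _ ≤ _ := by
          gcongr
          norm_num
  -- apply the vector lemma
  have hA := fun i q => hmain (V i) (P i) (x i) i (w (2 * k + 1) i) (w_mem _ i) (hn i) (hP i)
    (hx3 i) (hcon i) q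
  have hB := fun i q => hmain (star (V i)) (star (P i)) (x i)ᴴ i (w (2 * k + 1) i)ᴴ
    (by
      have := w_mem (2 * k + 1) i
      rw [Matrix.mem_unitaryGroup_iff'] at this
      rw [Matrix.mem_unitaryGroup_iff, Matrix.star_eq_conjTranspose,
        Matrix.conjTranspose_conjTranspose]
      exact this) (by rw [norm_star]; exact hn i)
    (by rw [← star_sub, norm_star]; exact hP i) (hx4 i)
    (by
      have h1 := hcon i
      rw [← norm_star] at h1
      have e : star (star c * V i * c - emb t (w (2 * k + 1) i)) =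
          star c * star (V i) * c - emb t (w (2 * k + 1) i)ᴴ := by
        rw [star_sub, star_emb, star_mul, star_mul, star_star, mul_assoc]
      rwa [e] at h1) q
  have hlow : ∀ q, (98 / 100) * (m : ℝ) ≤ nrm (R S m (c (t q η))) ^ 2 := by
    intro q
    rw [hS.nrm_R, mul_pow, Real.sq_sqrt (Nat.cast_nonneg m)]
    have h1 := (hA 0 q).2
    have h2 : (99 / 100 : ℝ) ^ 2 ≤ ‖c (t q η)‖ ^ 2 := pow_le_pow_left₀ (by norm_num) h1 2
    have h3 : (0 : ℝ) ≤ m := Nat.cast_nonneg m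
    nlinarith
  have hz := vector_key k (le_of_eq hk.symm) x (fun q => R S m (c (t q η))) (1 / (2 * 10 ^ 8))
    (by norm_num)
    (fun i => by
      rw [Finset.mul_sum]
      refine Finset.sum_le_sum fun q _ => (hA i q).1.trans ?_
      have := hlow q
      linarith)
    (fun i => by
      rw [Finset.mul_sum]
      refine Finset.sum_le_sum fun q _ => (hB i q).1.trans ?_
      have := hlow q
      linarith)
  have h0 : 0 < ∑ q : ZMod (2 * k + 1), nrm (R S m (c (t q η))) ^ 2 := by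
    apply Finset.sum_pos
    · intro q _
      have := hlow q
      linarith
    · exact Finset.univ_nonempty
  exact absurd hz (ne_of_gt h0)

end op

end Pool.Agent.Helper965.O2
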