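import Pool.Agent.Helper965.O2.Defs

set_option autoImplicit false

open Filter Topology BoundedContinuousFunction

namespace Pool.Agent.Helper965.O2

section basic

variable {D : Type} [CStarAlgebra D] {𝒰 : Ultrafilter ℕ}

lemma cls_eq_iff (x y : ℕ →ᵇ D) :
    cls D 𝒰 x = cls D 𝒰 y ↔ Tendsto (fun n => ‖x n - y n‖) (𝒰 : Filter ℕ) (𝓝 0) :=
  RingCon.eq (nullCon D 𝒰)

lemma cls_add (x y : ℕ →ᵇ D) : cls D 𝒰 (x + y) = cls D 𝒰 x + cls D 𝒰 y := rfl
lemma cls_mul (x y : ℕ →ᵇ D) : cls D 𝒰 (x * y) = cls D 𝒰 x * cls D 𝒰 y := rfl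
lemma cls_star (x : ℕ →ᵇ D) : cls D 𝒰 (star x) = star (cls D 𝒰 x) := rfl
lemma cls_smul (c : ℂ) (x : ℕ →ᵇ D) : cls D 𝒰 (c • x) = c • cls D 𝒰 x := rfl
lemma cls_zero : cls D 𝒰 0 = 0 := rfl
lemma cls_one : cls D 𝒰 1 = 1 := rfl

lemma cls_surj (x : Ultrapower D 𝒰) : ∃ y : ℕ →ᵇ D, cls D 𝒰 y = x := by
  induction x using Quotient.inductionOn' with
  | h y => exact ⟨y, rfl⟩

lemma ultra_star_mul (x y : Ultrapower D 𝒰) : star (x * y) = star y * star x := by
  obtain ⟨x, rfl⟩ := cls_surj x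
  obtain ⟨y, rfl⟩ := cls_surj y
  rw [← cls_mul, ← cls_star, ← cls_star, ← cls_star, ← cls_mul, star_mul]

lemma ultra_star_star (x : Ultrapower D 𝒰) : star (star x) = x := by
  obtain ⟨x, rfl⟩ := cls_surj x
  rw [← cls_star, ← cls_star, star_star]

lemma ultra_star_add (x y : Ultrapower D 𝒰) : star (x + y) = star x + star y := by
  obtain ⟨x, rfl⟩ := cls_surj x
  obtain ⟨y, rfl⟩ := cls_surj y
  rw [← cls_add, ← cls_star, ← cls_star, ← cls_star, ← cls_add, star_add]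

/-- An approximate partial isometry has norm at most about one. -/
lemma norm_le_of_approx {v : D} {δ : ℝ} (hδ : 0 ≤ δ) (h : ‖v * star v * v - v‖ ≤ δ) :
    ‖v‖ ≤ 1 + δ := by
  by_contra hcon
  push Not at hcon
  have h1 : ‖v * star v * v‖ ≤ ‖v‖ + δ := by
    calc ‖v * star v * v‖ = ‖(v * star v * v - v) + v‖ := by rw [sub_add_cancel]
      _ ≤ ‖v * star v * v - v‖ + ‖v‖ := norm_add_le _ _
      _ ≤ ‖v‖ + δ := by linarith
  have h2 : ‖v‖ ^ 4 ≤ ‖v‖ * ‖v * star v * v‖ := by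
    have e : star (star v * v) * (star v * v) = star v * (v * star v * v) := by
      rw [star_mul, star_star]; noncomm_ring
    have e2 : ‖star (star v * v) * (star v * v)‖ = ‖v‖ ^ 4 := by
      rw [CStarRing.norm_star_mul_self, CStarRing.norm_star_mul_self]; ring
    calc ‖v‖ ^ 4 = ‖star v * (v * star v * v)‖ := by rw [← e2, e]
      _ ≤ ‖star v‖ * ‖v * star v * v‖ := norm_mul_le _ _
      _ = _ := by rw [norm_star]
  have h0 : 1 ≤ ‖v‖ := by linarith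
  have h3 : ‖v‖ ^ 3 ≤ ‖v * star v * v‖ := by
    have hpos : 0 < ‖v‖ := by linarith
    have : ‖v‖ * ‖v‖ ^ 3 ≤ ‖v‖ * ‖v * star v * v‖ := by
      calc _ = ‖v‖ ^ 4 := by ring
        _ ≤ _ := h2
    exact le_of_mul_le_mul_left this hpos
  nlinarith [mul_nonneg (sub_nonneg.2 h0) (sub_nonneg.2 h0)]

lemma norm_le_one_of_pi {v : D} (h : v * star v * v = v) : ‖v‖ ≤ 1 := by
  have := norm_le_of_approx (v := v) (le_refl (0:ℝ)) (by rw [h]; simp)
  linarith

end basic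

section main

variable {D : Type} [CStarAlgebra D] (𝒰 : Ultrafilter ℕ)

/-- The bounded sequence attached to a sequence of contractions. -/
noncomputable def seq (W : ℕ → D) (hW : ∀ k, ‖W k‖ ≤ 1) : ℕ →ᵇ D :=
  BoundedContinuousFunction.ofNormedAddCommGroupDiscrete W 1 hW

/-- The separable C*-algebra generated by three sequences. -/
noncomputable def algA (W : Fin 3 → ℕ → D) (hW : ∀ i k, ‖W i k‖ ≤ 1) :
    StarSubalgebra ℂ (ℕ →ᵇ D) :=
  (StarAlgebra.adjoin ℂ (Set.range fun i => seq (W i) (hW i))).topologicalClosure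

noncomputable instance (W : Fin 3 → ℕ → D) (hW : ∀ i k, ‖W i k‖ ≤ 1) :
    CStarAlgebra (algA W hW) :=
  StarSubalgebra.cstarAlgebra _
    (h_closed := StarSubalgebra.isClosed_topologicalClosure _)

/-- The generators as elements of `algA`. -/
noncomputable def gen (W : Fin 3 → ℕ → D) (hW : ∀ i k, ‖W i k‖ ≤ 1) (i : Fin 3) : algA W hW :=
  ⟨seq (W i) (hW i), subset_closure (StarAlgebra.subset_adjoin ℂ _ ⟨i, rfl⟩)⟩

/-- The star-subalgebra generated by a countable set is separable. -/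
lemma isSeparable_adjoin {B : Type} [CStarAlgebra B] (s : Set B) (hs : s.Countable) :
    TopologicalSpace.IsSeparable ((StarAlgebra.adjoin ℂ s : StarSubalgebra ℂ B) : Set B) := by
  have h1 : ((StarAlgebra.adjoin ℂ s : StarSubalgebra ℂ B) : Set B) =
      (Algebra.adjoin ℂ (s ∪ star s) : Set B) := rfl
  rw [h1, ← Subalgebra.coe_toSubmodule, Algebra.adjoin_eq_span]
  apply TopologicalSpace.IsSeparable.span
  apply Set.Countable.isSeparable
  have h2 : (s ∪ star s).Countable := hs.union (by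
    have : star s = star '' s := by
      ext x
      simp only [Set.mem_star, Set.mem_image]
      exact ⟨fun h => ⟨star x, h, star_star x⟩, fun ⟨y, hy, hyx⟩ => by rw [← hyx, star_star]; exact hy⟩
    rw [this]
    exact hs.image _)
  have : Countable (s ∪ star s : Set B) := h2.to_subtype
  refine (Set.countable_range (fun l : List (s ∪ star s : Set B) =>
    (l.map Subtype.val).prod)).mono ?_
  intro x hx
  obtain ⟨l, hl, rfl⟩ := Submonoid.exists_list_of_mem_closure hx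
  lift l to List (s ∪ star s : Set B) using hl
  exact ⟨l, rfl⟩

instance sepA (W : Fin 3 → ℕ → D) (hW : ∀ i k, ‖W i k‖ ≤ 1) :
    TopologicalSpace.SeparableSpace (algA W hW) := by
  have h1 : TopologicalSpace.IsSeparable ((algA W hW : StarSubalgebra ℂ (ℕ →ᵇ D)) :
      Set (ℕ →ᵇ D)) := by
    apply TopologicalSpace.IsSeparable.closure
    exact isSeparable_adjoin _ (Set.countable_range _)
  exact h1.separableSpace

/-- Reindexing of bounded sequences. -/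
noncomputable def reidx (f : ℕ → ℕ) (x : ℕ →ᵇ D) : ℕ →ᵇ D :=
  x.compContinuous ⟨f, continuous_of_discreteTopology⟩

@[simp] lemma reidx_apply (f : ℕ → ℕ) (x : ℕ →ᵇ D) (n : ℕ) : reidx f x n = x (f n) := rfl

/-- The constant sequence. -/
noncomputable def cst (x : D) : ℕ →ᵇ D := BoundedContinuousFunction.const ℕ x

variable {𝒰}

/-- The direct sum of an arbitrary *-homomorphism `φ` with a reindexed coordinate
*-homomorphism. -/
noncomputable def dsum (σ₁ σ₂ : D) (h11 : star σ₁ * σ₁ = 1) (h22 : star σ₂ * σ₂ = 1)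
    (h12 : star σ₁ * σ₂ = 0) (B : StarSubalgebra ℂ (ℕ →ᵇ D)) (f : ℕ → ℕ)
    (φ : B →⋆ₙₐ[ℂ] Ultrapower D 𝒰) : B →⋆ₙₐ[ℂ] Ultrapower D 𝒰 where
  toFun a := cls D 𝒰 (cst σ₁) * φ a * star (cls D 𝒰 (cst σ₁)) +
    cls D 𝒰 (cst σ₂ * reidx f (a : ℕ →ᵇ D) * star (cst σ₂))
  map_smul' c a := by
    have e1 : cst σ₂ * reidx f ((c • a : B) : ℕ →ᵇ D) * star (cst σ₂) =
        c • (cst σ₂ * reidx f (a : ℕ →ᵇ D) * star (cst σ₂)) := by
      ext n
      simp
    rw [e1, cls_smul, map_smul, mul_smul_comm, smul_mul_assoc]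
    exact (smul_add c (cls D 𝒰 (cst σ₁) * φ a * star (cls D 𝒰 (cst σ₁)))
      (cls D 𝒰 (cst σ₂ * reidx f (a : ℕ →ᵇ D) * star (cst σ₂)))).symm
  map_zero' := by
    have e1 : cst σ₂ * reidx f ((0 : B) : ℕ →ᵇ D) * star (cst σ₂) = 0 := by
      ext n
      simp
    rw [e1, cls_zero, map_zero, mul_zero, zero_mul, add_zero]
  map_add' a b := by
    have e1 : cst σ₂ * reidx f ((a + b : B) : ℕ →ᵇ D) * star (cst σ₂) =
        cst σ₂ * reidx f (a : ℕ →ᵇ D) * star (cst σ₂) +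
        cst σ₂ * reidx f (b : ℕ →ᵇ D) * star (cst σ₂) := by
      ext n
      simp [mul_add, add_mul]
    rw [e1, cls_add, map_add, mul_add, add_mul]
    abel
  map_mul' a b := by
    have k11 : star (cls D 𝒰 (cst σ₁)) * cls D 𝒰 (cst σ₁) = 1 := by
      rw [← cls_star, ← cls_mul, ← cls_one]
      congr 1; ext n; simp [cst, h11]
    have k12 : star (cls D 𝒰 (cst σ₁)) * cls D 𝒰 (cst σ₂ * reidx f (b : ℕ →ᵇ D) * star (cst σ₂)) =
        0 := by
      rw [← cls_star, ← cls_mul, ← cls_zero]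
      congr 1; ext n
      simp only [cst, BoundedContinuousFunction.mul_apply, BoundedContinuousFunction.star_apply,
        BoundedContinuousFunction.const_apply, BoundedContinuousFunction.coe_zero, Pi.zero_apply]
      rw [← mul_assoc, ← mul_assoc, h12]; simp
    have h21 : star σ₂ * σ₁ = 0 := by
      have := congrArg star h12
      simpa using this
    have k21 : cls D 𝒰 (cst σ₂ * reidx f (a : ℕ →ᵇ D) * star (cst σ₂)) * cls D 𝒰 (cst σ₁) = 0 := by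
      rw [← cls_mul, ← cls_zero]
      congr 1; ext n
      simp only [cst, BoundedContinuousFunction.mul_apply, BoundedContinuousFunction.star_apply,
        BoundedContinuousFunction.const_apply, BoundedContinuousFunction.coe_zero, Pi.zero_apply]
      rw [mul_assoc, h21]; simp
    have k22 : cls D 𝒰 (cst σ₂ * reidx f (a : ℕ →ᵇ D) * star (cst σ₂)) *
        cls D 𝒰 (cst σ₂ * reidx f (b : ℕ →ᵇ D) * star (cst σ₂)) =
        cls D 𝒰 (cst σ₂ * reidx f ((a * b : B) : ℕ →ᵇ D) * star (cst σ₂)) := by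
      rw [← cls_mul]
      congr 1; ext n
      simp only [cst, BoundedContinuousFunction.mul_apply, BoundedContinuousFunction.star_apply,
        BoundedContinuousFunction.const_apply, reidx_apply, MulMemClass.coe_mul]
      calc σ₂ * (a : ℕ →ᵇ D) (f n) * star σ₂ * (σ₂ * (b : ℕ →ᵇ D) (f n) * star σ₂)
          = σ₂ * (a : ℕ →ᵇ D) (f n) * (star σ₂ * σ₂) * (b : ℕ →ᵇ D) (f n) * star σ₂ := by
            noncomm_ring
        _ = _ := by rw [h22]; noncomm_ring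
    rw [map_mul, ← k22]
    set s := cls D 𝒰 (cst σ₁)
    set x := cls D 𝒰 (cst σ₂ * reidx f (a : ℕ →ᵇ D) * star (cst σ₂))
    set y := cls D 𝒰 (cst σ₂ * reidx f (b : ℕ →ᵇ D) * star (cst σ₂))
    calc s * (φ a * φ b) * star s + x * y
        = s * φ a * 1 * φ b * star s + s * φ a * 0 + 0 * (φ b * star s) + x * y := by
          noncomm_ring
      _ = s * φ a * (star s * s) * φ b * star s + s * φ a * (star s * y) +
          (x * s) * (φ b * star s) + x * y := by rw [k11, k12, k21]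
      _ = (s * φ a * star s + x) * (s * φ b * star s + y) := by noncomm_ring
  map_star' a := by
    have e1 : cst σ₂ * reidx f ((star a : B) : ℕ →ᵇ D) * star (cst σ₂) =
        star (cst σ₂ * reidx f (a : ℕ →ᵇ D) * star (cst σ₂)) := by
      ext n
      simp [mul_assoc]
    rw [e1, cls_star, map_star, ultra_star_add, ultra_star_mul, ultra_star_mul, ultra_star_star,
      mul_assoc]

lemma dsum_apply (σ₁ σ₂ : D) (h11 : star σ₁ * σ₁ = 1) (h22 : star σ₂ * σ₂ = 1)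
    (h12 : star σ₁ * σ₂ = 0) (B : StarSubalgebra ℂ (ℕ →ᵇ D)) (f : ℕ → ℕ)
    (φ : B →⋆ₙₐ[ℂ] Ultrapower D 𝒰) (a : B) : dsum σ₁ σ₂ h11 h22 h12 B f φ a =
      cls D 𝒰 (cst σ₁) * φ a * star (cls D 𝒰 (cst σ₁)) +
      cls D 𝒰 (cst σ₂ * reidx f (a : ℕ →ᵇ D) * star (cst σ₂)) := rfl

lemma dsum_corner₁ (σ₁ σ₂ : D) (h11 : star σ₁ * σ₁ = 1) (h22 : star σ₂ * σ₂ = 1)
    (h12 : star σ₁ * σ₂ = 0) (B : StarSubalgebra ℂ (ℕ →ᵇ D)) (f : ℕ → ℕ)
    (φ : B →⋆ₙₐ[ℂ] Ultrapower D 𝒰) (a : B) :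
    star (cls D 𝒰 (cst σ₁)) * dsum σ₁ σ₂ h11 h22 h12 B f φ a * cls D 𝒰 (cst σ₁) = φ a := by
  have k11 : star (cls D 𝒰 (cst σ₁)) * cls D 𝒰 (cst σ₁) = 1 := by
    rw [← cls_star, ← cls_mul, ← cls_one]
    congr 1; ext n; simp [cst, h11]
  have k12 : star (cls D 𝒰 (cst σ₁)) * cls D 𝒰 (cst σ₂ * reidx f (a : ℕ →ᵇ D) * star (cst σ₂)) =
      0 := by
    rw [← cls_star, ← cls_mul, ← cls_zero]
    congr 1; ext n
    simp only [cst, BoundedContinuousFunction.mul_apply, BoundedContinuousFunction.star_apply,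
      BoundedContinuousFunction.const_apply, BoundedContinuousFunction.coe_zero, Pi.zero_apply]
    rw [← mul_assoc, ← mul_assoc, h12]; simp
  rw [dsum_apply]
  set s := cls D 𝒰 (cst σ₁)
  set x := cls D 𝒰 (cst σ₂ * reidx f (a : ℕ →ᵇ D) * star (cst σ₂))
  calc star s * (s * φ a * star s + x) * s
      = (star s * s) * φ a * (star s * s) + (star s * x) * s := by noncomm_ring
    _ = φ a := by rw [k11, k12]; noncomm_ring

lemma dsum_corner₂ (σ₁ σ₂ : D) (h11 : star σ₁ * σ₁ = 1) (h22 : star σ₂ * σ₂ = 1)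
    (h12 : star σ₁ * σ₂ = 0) (B : StarSubalgebra ℂ (ℕ →ᵇ D)) (f : ℕ → ℕ)
    (φ : B →⋆ₙₐ[ℂ] Ultrapower D 𝒰) (a : B) :
    star (cls D 𝒰 (cst σ₂)) * dsum σ₁ σ₂ h11 h22 h12 B f φ a * cls D 𝒰 (cst σ₂) =
      cls D 𝒰 (reidx f (a : ℕ →ᵇ D)) := by
  have h21 : star σ₂ * σ₁ = 0 := by
    have := congrArg star h12
    simpa using this
  have k21 : star (cls D 𝒰 (cst σ₂)) * cls D 𝒰 (cst σ₁) = 0 := by
    rw [← cls_star, ← cls_mul, ← cls_zero]
    congr 1; ext n; simp [cst, h21]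
  have k22 : star (cls D 𝒰 (cst σ₂)) * cls D 𝒰 (cst σ₂ * reidx f (a : ℕ →ᵇ D) * star (cst σ₂)) *
      cls D 𝒰 (cst σ₂) = cls D 𝒰 (reidx f (a : ℕ →ᵇ D)) := by
    rw [← cls_star, ← cls_mul, ← cls_mul]
    congr 1; ext n
    simp only [cst, BoundedContinuousFunction.mul_apply, BoundedContinuousFunction.star_apply,
      BoundedContinuousFunction.const_apply, reidx_apply]
    calc star σ₂ * (σ₂ * (a : ℕ →ᵇ D) (f n) * star σ₂) * σ₂
        = (star σ₂ * σ₂) * (a : ℕ →ᵇ D) (f n) * (star σ₂ * σ₂) := by noncomm_ring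
      _ = _ := by rw [h22]; noncomm_ring
  rw [dsum_apply, ← k22]
  set s := cls D 𝒰 (cst σ₁)
  set t := cls D 𝒰 (cst σ₂)
  set x := cls D 𝒰 (cst σ₂ * reidx f (a : ℕ →ᵇ D) * star (cst σ₂))
  calc star t * (s * φ a * star s + x) * t
      = (star t * s) * (φ a * star s * t) + star t * x * t := by noncomm_ring
    _ = star t * x * t := by rw [k21]; noncomm_ring

/-- **Abstract theorem.** If no triple of contractions dominates all the triples `W · k`, then the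
algebra generated by the sequences `W` has no maximal embedding. -/
theorem no_max (σ₁ σ₂ : D) (h11 : star σ₁ * σ₁ = 1) (h22 : star σ₂ * σ₂ = 1)
    (h12 : star σ₁ * σ₂ = 0) (W : Fin 3 → ℕ → D) (hW : ∀ i k, ‖W i k‖ ≤ 1)
    (hWp : ∀ i k, W i k * star (W i k) * W i k = W i k)
    (hkey : ∀ V : Fin 3 → D, (∀ i, ‖V i‖ ≤ 1) → ∃ k : ℕ, ∀ c : D, ‖c‖ ≤ 1 →
      ¬ ∀ i, ‖star c * V i * c - W i k‖ ≤ 1 / 10 ^ 10)
    (φ : algA W hW →⋆ₙₐ[ℂ] Ultrapower D 𝒰) : ¬ IsMaximalEmbedding φ := by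
  rintro ⟨hinj, hmax⟩
  -- lifts
  choose V hV using fun i => cls_surj (φ (gen W hW i))
  have hδ : (0 : ℝ) < 1 / 10 ^ 11 := by norm_num
  have hVn : ∀ i, ∀ᶠ n in (𝒰 : Filter ℕ), ‖V i n‖ ≤ 1 + 1 / 10 ^ 11 := by
    intro i
    have e1 : gen W hW i * star (gen W hW i) * gen W hW i = gen W hW i := by
      apply Subtype.ext
      ext k
      exact hWp i k
    have e2 : cls D 𝒰 (V i * star (V i) * V i) = cls D 𝒰 (V i) := by
      rw [cls_mul, cls_mul, cls_star, hV, ← map_star, ← map_mul, ← map_mul, e1]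
    rw [cls_eq_iff] at e2
    filter_upwards [e2.eventually (ge_mem_nhds hδ)] with n hn
    exact norm_le_of_approx hδ.le hn
  -- the choice of indices
  have hf : ∀ n : ℕ, ∃ k : ℕ, (∀ i, ‖V i n‖ ≤ 1 + 1 / 10 ^ 11) → ∀ c : D, ‖c‖ ≤ 1 →
      ¬ ∀ i, ‖star c * ((((1 + 1 / 10 ^ 11 : ℝ)⁻¹ : ℝ) : ℂ) • V i n) * c - W i k‖ ≤
        1 / 10 ^ 10 := by
    intro n
    by_cases h : ∀ i, ‖V i n‖ ≤ 1 + 1 / 10 ^ 11
    · obtain ⟨k, hk⟩ := hkey (fun i => (((1 + 1 / 10 ^ 11 : ℝ)⁻¹ : ℝ) : ℂ) • V i n) (by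
        intro i
        rw [norm_smul, Complex.norm_real, Real.norm_of_nonneg (by positivity)]
        have := h i
        rw [inv_mul_le_iff₀ (by positivity)]
        linarith)
      exact ⟨k, fun _ => hk⟩
    · exact ⟨0, fun h' => absurd h' h⟩
  choose f hf using hf
  -- the direct sum
  set θ := dsum (𝒰 := 𝒰) σ₁ σ₂ h11 h22 h12 (algA W hW) f φ with hθ
  have hθinj : Function.Injective θ := by
    intro a b hab
    apply hinj
    rw [← dsum_corner₁ σ₁ σ₂ h11 h22 h12 _ f φ a, ← dsum_corner₁ σ₁ σ₂ h11 h22 h12 _ f φ b,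
      ← hθ, hab]
  have hbelow : Below φ θ := by
    refine ⟨cls D 𝒰 (cst σ₁), ?_, fun a => dsum_corner₁ σ₁ σ₂ h11 h22 h12 _ f φ a⟩
    rw [mul_assoc, ← cls_star, ← cls_mul, ← cls_mul]
    congr 1; ext n; simp [cst, h11]
  obtain ⟨u, hu, hut⟩ := hmax θ hθinj hbelow
  obtain ⟨U, rfl⟩ := cls_surj u
  have hUn : ∀ᶠ n in (𝒰 : Filter ℕ), ‖U n‖ ≤ 1 + 1 / 10 ^ 11 := by
    rw [← cls_star, ← cls_mul, ← cls_mul, cls_eq_iff] at hu
    filter_upwards [hu.eventually (ge_mem_nhds hδ)] with n hn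
    exact norm_le_of_approx hδ.le hn
  have hdom : ∀ i, ∀ᶠ n in (𝒰 : Filter ℕ),
      ‖star σ₂ * (star (U n) * V i n * U n) * σ₂ - W i (f n)‖ ≤ 1 / 10 ^ 11 := by
    intro i
    have e1 : cls D 𝒰 (star (cst σ₂) * (star U * V i * U) * cst σ₂) =
        cls D 𝒰 (reidx f (seq (W i) (hW i))) := by
      have e2 := dsum_corner₂ (𝒰 := 𝒰) σ₁ σ₂ h11 h22 h12 (algA W hW) f φ (gen W hW i)
      rw [← hθ, ← hut, ← hV] at e2
      exact e2
    rw [cls_eq_iff] at e1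
    filter_upwards [e1.eventually (ge_mem_nhds hδ)] with n hn
    exact hn
  -- pick an index
  have hall : ∀ᶠ n in (𝒰 : Filter ℕ), (∀ i, ‖V i n‖ ≤ 1 + 1 / 10 ^ 11) ∧
      ‖U n‖ ≤ 1 + 1 / 10 ^ 11 ∧
      ∀ i, ‖star σ₂ * (star (U n) * V i n * U n) * σ₂ - W i (f n)‖ ≤ 1 / 10 ^ 11 :=
    (Filter.eventually_all.2 hVn).and (hUn.and (Filter.eventually_all.2 hdom))
  obtain ⟨n, hn1, hn2, hn3⟩ := hall.exists
  set r : ℝ := (1 + 1 / 10 ^ 11 : ℝ)⁻¹ with hr
  have hr0 : 0 < r := by positivity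
  have hr1 : r * (1 + 1 / 10 ^ 11) = 1 := inv_mul_cancel₀ (by positivity)
  have hσ : ‖σ₂‖ ≤ 1 := norm_le_one_of_pi (by rw [mul_assoc, h22, mul_one])
  refine hf n hn1 ((r : ℂ) • (U n * σ₂)) ?_ ?_
  · rw [norm_smul, Complex.norm_real, Real.norm_of_nonneg hr0.le]
    calc r * ‖U n * σ₂‖ ≤ r * ((1 + 1 / 10 ^ 11) * 1) := by
          gcongr
          exact (norm_mul_le _ _).trans (mul_le_mul hn2 hσ (norm_nonneg _) (by positivity))
      _ = 1 := by rw [mul_one, hr1]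
  · intro i
    set Y := star σ₂ * (star (U n) * V i n * U n) * σ₂ with hY
    have e1 : star ((r : ℂ) • (U n * σ₂)) * ((r : ℂ) • V i n) * ((r : ℂ) • (U n * σ₂)) =
        ((r ^ 3 : ℝ) : ℂ) • Y := by
      rw [star_smul, star_mul]
      have : star (r : ℂ) = (r : ℂ) := Complex.conj_ofReal r
      rw [this, hY]
      simp only [smul_mul_assoc, mul_smul_comm, smul_smul, mul_assoc]
      congr 1
      push_cast; ring
    rw [e1]
    have e2 : ((r ^ 3 : ℝ) : ℂ) • Y - W i (f n) =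
        ((r ^ 3 : ℝ) : ℂ) • (Y - W i (f n)) + (((r ^ 3 : ℝ) : ℂ) - 1) • W i (f n) := by
      rw [smul_sub, sub_smul, one_smul]; abel
    rw [e2]
    have hrle : r ≤ 1 := by
      calc r = r * 1 := (mul_one r).symm
        _ ≤ r * (1 + 1 / 10 ^ 11) := by
          have : (1 : ℝ) ≤ 1 + 1 / 10 ^ 11 := by norm_num
          gcongr
        _ = 1 := hr1
    have hrge : 1 - 1 / 10 ^ 11 ≤ r := by
      have h1 : r * (1 / 10 ^ 11) ≤ 1 * (1 / 10 ^ 11) := by gcongr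
      have h2 : r + r * (1 / 10 ^ 11) = 1 := by rw [← hr1]; ring
      linarith
    have e3 : ‖((r ^ 3 : ℝ) : ℂ)‖ ≤ 1 := by
      rw [Complex.norm_real, Real.norm_of_nonneg (by positivity)]
      exact pow_le_one₀ hr0.le hrle
    have e4 : ‖(((r ^ 3 : ℝ) : ℂ) - 1)‖ ≤ 3 / 10 ^ 11 := by
      rw [← Complex.ofReal_one, ← Complex.ofReal_sub, Complex.norm_real, Real.norm_eq_abs, abs_le]
      have h3 : (1 - 1 / 10 ^ 11 : ℝ) ^ 3 ≤ r ^ 3 := pow_le_pow_left₀ (by norm_num) hrge 3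
      have h4 : r ^ 3 ≤ 1 := pow_le_one₀ hr0.le hrle
      have h5 : (1 - 3 / 10 ^ 11 : ℝ) ≤ (1 - 1 / 10 ^ 11 : ℝ) ^ 3 := by norm_num
      constructor
      · linarith
      · have : (0 : ℝ) < 3 / 10 ^ 11 := by norm_num
        linarith
    calc ‖((r ^ 3 : ℝ) : ℂ) • (Y - W i (f n)) + (((r ^ 3 : ℝ) : ℂ) - 1) • W i (f n)‖
        ≤ ‖((r ^ 3 : ℝ) : ℂ) • (Y - W i (f n))‖ + ‖(((r ^ 3 : ℝ) : ℂ) - 1) • W i (f n)‖ :=
          norm_add_le _ _
      _ = ‖((r ^ 3 : ℝ) : ℂ)‖ * ‖Y - W i (f n)‖ + ‖(((r ^ 3 : ℝ) : ℂ) - 1)‖ * ‖W i (f n)‖ := by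
          rw [norm_smul, norm_smul]
      _ ≤ 1 * (1 / 10 ^ 11) + 3 / 10 ^ 11 * 1 := by
          gcongr
          · exact hn3 i
          · exact hW i _
      _ ≤ 1 / 10 ^ 10 := by norm_num

end main

end Pool.Agent.Helper965.O2
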