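import Mathlib

set_option autoImplicit false

open scoped BigOperators Matrix ComplexOrder

namespace Pool.Agent.Helper965.O2

/-- Hilbert–Schmidt norm squared. -/
noncomputable def hs {m n : Type} [Fintype m] [Fintype n] (A : Matrix m n ℂ) : ℝ :=
  ∑ i, ∑ j, ‖A i j‖ ^ 2

/-- The clock matrix. -/
noncomputable def wZ (N : ℕ) [NeZero N] : Matrix (ZMod N) (ZMod N) ℂ :=
  Matrix.diagonal fun p => (ZMod.stdAddChar p : ℂ)

/-- The chirp matrix (`(N+1)/2` is the inverse of `2` for odd `N`). -/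
noncomputable def wC (N : ℕ) [NeZero N] : Matrix (ZMod N) (ZMod N) ℂ :=
  Matrix.diagonal fun p => (ZMod.stdAddChar ((((N + 1) / 2 : ℕ) : ZMod N) * p * p) : ℂ)

/-- The Fourier matrix. -/
noncomputable def wF (N : ℕ) [NeZero N] : Matrix (ZMod N) (ZMod N) ℂ :=
  Matrix.of fun j k => (ZMod.stdAddChar (j * k) : ℂ) / ((Real.sqrt N : ℝ) : ℂ)

/-- The three unitary matrices. -/
noncomputable def w (N : ℕ) [NeZero N] : Fin 3 → Matrix (ZMod N) (ZMod N) ℂ :=
  ![wZ N, wC N, wF N]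

lemma norm_chr {N : ℕ} [NeZero N] (x : ZMod N) : ‖(ZMod.stdAddChar x : ℂ)‖ = 1 := by
  rw [ZMod.stdAddChar_apply]
  exact Circle.norm_coe _

lemma star_chr {N : ℕ} [NeZero N] (x : ZMod N) :
    star (ZMod.stdAddChar x : ℂ) = ZMod.stdAddChar (-x) := by
  rw [AddChar.map_neg_eq_inv, Complex.inv_def, Complex.normSq_eq_norm_sq, norm_chr]
  simp

lemma chr_mul_star {N : ℕ} [NeZero N] (x : ZMod N) :
    (ZMod.stdAddChar x : ℂ) * star (ZMod.stdAddChar x : ℂ) = 1 := by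
  rw [star_chr, ← AddChar.map_add_eq_mul]
  simp

lemma wZ_mem (N : ℕ) [NeZero N] : wZ N ∈ Matrix.unitaryGroup (ZMod N) ℂ := by
  rw [Matrix.mem_unitaryGroup_iff, wZ, Matrix.star_eq_conjTranspose, Matrix.diagonal_conjTranspose,
    Matrix.diagonal_mul_diagonal, ← Matrix.diagonal_one]
  congr 1
  ext p
  exact chr_mul_star p

lemma wC_mem (N : ℕ) [NeZero N] : wC N ∈ Matrix.unitaryGroup (ZMod N) ℂ := by
  rw [Matrix.mem_unitaryGroup_iff, wC, Matrix.star_eq_conjTranspose, Matrix.diagonal_conjTranspose,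
    Matrix.diagonal_mul_diagonal, ← Matrix.diagonal_one]
  congr 1
  ext p
  exact chr_mul_star _

lemma wF_mem (N : ℕ) [NeZero N] : wF N ∈ Matrix.unitaryGroup (ZMod N) ℂ := by
  rw [Matrix.mem_unitaryGroup_iff]
  ext j k
  have hN : (0 : ℝ) < N := by exact_mod_cast Nat.pos_of_ne_zero (NeZero.ne N)
  have hs : (((Real.sqrt N : ℝ) : ℂ)) * ((Real.sqrt N : ℝ) : ℂ) = (N : ℂ) := by
    rw [← Complex.ofReal_mul, Real.mul_self_sqrt hN.le]; simp
  have e : ∀ l : ZMod N, wF N j l * star (wF N k l) =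
      (ZMod.stdAddChar (l * (j - k)) : ℂ) / N := by
    intro l
    simp only [wF, Matrix.of_apply, star_div₀, star_chr]
    have h1 : star ((Real.sqrt N : ℝ) : ℂ) = ((Real.sqrt N : ℝ) : ℂ) := Complex.conj_ofReal _
    rw [h1, div_mul_div_comm, hs, ← AddChar.map_add_eq_mul]
    congr 2
    ring
  rw [Matrix.mul_apply]
  simp only [Matrix.star_apply]
  rw [Finset.sum_congr rfl fun l _ => e l, ← Finset.sum_div,
    AddChar.sum_mulShift _ (ZMod.isPrimitive_stdAddChar N)]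
  have hN' : (N : ℂ) ≠ 0 := by exact_mod_cast (NeZero.ne N)
  by_cases hjk : j = k
  · subst hjk
    simp [hN']
  · have : j - k ≠ 0 := sub_ne_zero.2 hjk
    simp [this, hjk]

lemma w_mem (N : ℕ) [NeZero N] (i : Fin 3) : w N i ∈ Matrix.unitaryGroup (ZMod N) ℂ := by
  fin_cases i
  · exact wZ_mem N
  · exact wC_mem N
  · exact wF_mem N

end Pool.Agent.Helper965.O2
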