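import Mathlib

set_option autoImplicit false

open Filter Topology BoundedContinuousFunction

namespace Pool.Agent.Helper965.O2

section cuntzalg

variable {B : Type} [CStarAlgebra B]

/-- Two isometries `s₁, s₂` with `s₁s₁* + s₂s₂* = 1`. -/
def IsCuntzPair (s₁ s₂ : B) : Prop :=
  star s₁ * s₁ = 1 ∧ star s₂ * s₂ = 1 ∧ s₁ * star s₁ + s₂ * star s₂ = 1

/-- The C*-subalgebra of `B` generated by `s₁, s₂`: the norm closure of the *-algebra generated by
`s₁, s₂` (and the unit). -/
noncomputable def generated (s₁ s₂ : B) : StarSubalgebra ℂ B :=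
  (StarAlgebra.adjoin ℂ {s₁, s₂}).topologicalClosure

/-- The Cuntz algebra `𝒪₂` (when `IsCuntzPair s₁ s₂` holds): the C*-algebra generated by
`s₁, s₂`. -/
def O2 (s₁ s₂ : B) : Type := generated s₁ s₂

/-- The C*-algebra structure inherited from `B`. -/
noncomputable instance instO2 (s₁ s₂ : B) : CStarAlgebra (O2 s₁ s₂) :=
  StarSubalgebra.cstarAlgebra (generated s₁ s₂)
    (h_closed := StarSubalgebra.isClosed_topologicalClosure (StarAlgebra.adjoin ℂ {s₁, s₂}))

end cuntzalg

section ultrapower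

variable (D : Type) [CStarAlgebra D] (𝒰 : Ultrafilter ℕ)

/-- Two bounded sequences `x, y` in `D` (elements of `ℓ^∞(ℕ, D)`) are identified if
`lim_{n → 𝒰} ‖x n - y n‖ = 0`; equivalently, `x - y` lies in the ideal of bounded sequences
with `lim_{n → 𝒰} ‖x n‖ = 0`. -/
def NullRel (x y : ℕ →ᵇ D) : Prop :=
  Tendsto (fun n => ‖x n - y n‖) (𝒰 : Filter ℕ) (𝓝 0)

lemma nullRel_equiv : Equivalence (NullRel D 𝒰) := by
  refine ⟨fun x => ?_, fun {x y} h => ?_, fun {x y z} h h' => ?_⟩
  · simp [NullRel]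
  · simpa only [NullRel, norm_sub_rev] using h
  · have h2 := h.add h'
    rw [add_zero] at h2
    refine squeeze_zero (fun _ => norm_nonneg _) (fun n => ?_) h2
    calc ‖x n - z n‖ = ‖(x n - y n) + (y n - z n)‖ := by rw [sub_add_sub_cancel]
      _ ≤ _ := norm_add_le _ _

lemma nullRel_add {x x' y y' : ℕ →ᵇ D} (h : NullRel D 𝒰 x x') (h' : NullRel D 𝒰 y y') :
    NullRel D 𝒰 (x + y) (x' + y') := by
  have h2 := h.add h'
  rw [add_zero] at h2
  refine squeeze_zero (fun _ => norm_nonneg _) (fun n => ?_) h2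
  calc ‖(x + y) n - (x' + y') n‖ = ‖(x n - x' n) + (y n - y' n)‖ := by
        rw [BoundedContinuousFunction.add_apply, BoundedContinuousFunction.add_apply,
          add_sub_add_comm]
    _ ≤ _ := norm_add_le _ _

lemma nullRel_mul {x x' y y' : ℕ →ᵇ D} (h : NullRel D 𝒰 x x') (h' : NullRel D 𝒰 y y') :
    NullRel D 𝒰 (x * y) (x' * y') := by
  have h2 := (h.mul_const ‖y‖).add (h'.const_mul ‖x'‖)
  rw [zero_mul, mul_zero, add_zero] at h2
  refine squeeze_zero (fun _ => norm_nonneg _) (fun n => ?_) h2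
  calc ‖(x * y) n - (x' * y') n‖ = ‖(x n - x' n) * y n + x' n * (y n - y' n)‖ := by
        rw [BoundedContinuousFunction.mul_apply, BoundedContinuousFunction.mul_apply]
        congr 1
        noncomm_ring
    _ ≤ ‖(x n - x' n) * y n‖ + ‖x' n * (y n - y' n)‖ := norm_add_le _ _
    _ ≤ ‖x n - x' n‖ * ‖y‖ + ‖x'‖ * ‖y n - y' n‖ := by
        refine add_le_add ((norm_mul_le _ _).trans ?_) ((norm_mul_le _ _).trans ?_)
        · gcongr; exact y.norm_coe_le_norm n
        · gcongr; exact x'.norm_coe_le_norm n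

lemma nullRel_star {x y : ℕ →ᵇ D} (h : NullRel D 𝒰 x y) : NullRel D 𝒰 (star x) (star y) := by
  show Tendsto (fun n => ‖star (x n) - star (y n)‖) (𝒰 : Filter ℕ) (𝓝 0)
  simp only [← star_sub, norm_star]
  exact h

/-- `NullRel` as a ring congruence on `ℓ^∞(ℕ, D)`. -/
def nullCon : RingCon (ℕ →ᵇ D) where
  r := NullRel D 𝒰
  iseqv := nullRel_equiv D 𝒰
  add' := nullRel_add D 𝒰
  mul' := nullRel_mul D 𝒰

/-- The norm ultrapower `∏_𝒰 D = ℓ^∞(ℕ, D) / {(x_n) : lim_{n → 𝒰} ‖x_n‖ = 0}`, as a *-algebra. -/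
def Ultrapower : Type := (nullCon D 𝒰).Quotient

/-- The quotient ring structure. -/
noncomputable instance instRingUltra : Ring (Ultrapower D 𝒰) :=
  (inferInstance : Ring (nullCon D 𝒰).Quotient)

/-- The quotient algebra structure. -/
noncomputable instance instAlgUltra : Algebra ℂ (Ultrapower D 𝒰) :=
  (inferInstance : Algebra ℂ (nullCon D 𝒰).Quotient)

/-- The class of a bounded sequence in the ultrapower. -/
def cls (x : ℕ →ᵇ D) : Ultrapower D 𝒰 := (nullCon D 𝒰).mk' x

/-- The involution of the ultrapower, `[(x_n)]* = [(x_n*)]`. -/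
noncomputable instance instStarUltra : Star (Ultrapower D 𝒰) where
  star := Quotient.map' star fun _ _ h => nullRel_star D 𝒰 h

end ultrapower

section order

/-- The *-homomorphisms (not necessarily unital) from a C*-algebra `A` to `∏_𝒰 D`. -/
abbrev Hom (A : Type) [CStarAlgebra A] (D : Type) [CStarAlgebra D] (𝒰 : Ultrafilter ℕ) : Type :=
  A →⋆ₙₐ[ℂ] Ultrapower D 𝒰

variable {A : Type} [CStarAlgebra A] {D : Type} [CStarAlgebra D] {𝒰 : Ultrafilter ℕ}

/-- `φ₁ ≤ φ₂`: there is a partial isometry `u` of the ultrapower with `u* φ₂(a) u = φ₁(a)` for all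
`a`. -/
def Below (φ₁ φ₂ : Hom A D 𝒰) : Prop :=
  ∃ u : Ultrapower D 𝒰, u * star u * u = u ∧ ∀ a : A, star u * φ₂ a * u = φ₁ a

/-- An embedding is an injective *-homomorphism. -/
def IsEmbedding (φ : Hom A D 𝒰) : Prop := Function.Injective φ

/-- An embedding `φ` is `≤`-maximal: every embedding above `φ` is below `φ`. -/
def IsMaximalEmbedding (φ : Hom A D 𝒰) : Prop :=
  IsEmbedding φ ∧ ∀ ψ : Hom A D 𝒰, IsEmbedding ψ → Below φ ψ → Below ψ φ

end order

end Pool.Agent.Helper965.O2
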