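import Pool.Agent.Helper965.O2.Abs

set_option autoImplicit false

open Filter Topology BoundedContinuousFunction
open scoped BigOperators Matrix

namespace Pool.Agent.Helper965.O2

section units

variable {D : Type} [CStarAlgebra D] {σ₁ σ₂ : D}

/-- The isometries `σ₂^j σ₁` have pairwise orthogonal ranges. -/
lemma pow_orth (h11 : star σ₁ * σ₁ = 1) (h22 : star σ₂ * σ₂ = 1)
    (h12 : star σ₁ * σ₂ = 0) (i j : ℕ) :
    star (σ₂ ^ i * σ₁) * (σ₂ ^ j * σ₁) = if i = j then 1 else 0 := by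
  have hp : ∀ n : ℕ, star (σ₂ ^ n) * σ₂ ^ n = 1 := by
    intro n
    induction n with
    | zero => simp
    | succ n ih =>
      calc star (σ₂ ^ (n + 1)) * σ₂ ^ (n + 1)
          = star σ₂ * (star (σ₂ ^ n) * σ₂ ^ n) * σ₂ := by
            rw [pow_succ, star_mul]; noncomm_ring
        _ = 1 := by rw [ih, mul_one, h22]
  have hlt : ∀ i d : ℕ, star (σ₂ ^ i * σ₁) * (σ₂ ^ (i + (d + 1)) * σ₁) = 0 := by
    intro i d
    calc star (σ₂ ^ i * σ₁) * (σ₂ ^ (i + (d + 1)) * σ₁)
        = star σ₁ * ((star (σ₂ ^ i) * σ₂ ^ i) * (σ₂ * (σ₂ ^ d * σ₁))) := by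
          rw [star_mul, pow_add, pow_succ' σ₂ d]
          simp only [mul_assoc]
      _ = (star σ₁ * σ₂) * (σ₂ ^ d * σ₁) := by rw [hp, one_mul, mul_assoc]
      _ = 0 := by rw [h12, zero_mul]
  rcases lt_trichotomy i j with h | h | h
  · rw [if_neg h.ne]
    obtain ⟨d, rfl⟩ : ∃ d, j = i + (d + 1) := ⟨j - i - 1, by omega⟩
    exact hlt i d
  · subst h
    rw [if_pos rfl, star_mul]
    calc star σ₁ * star (σ₂ ^ i) * (σ₂ ^ i * σ₁)
        = star σ₁ * (star (σ₂ ^ i) * σ₂ ^ i) * σ₁ := by simp only [mul_assoc]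
      _ = 1 := by rw [hp, mul_one, h11]
  · rw [if_neg h.ne']
    obtain ⟨d, rfl⟩ : ∃ d, i = j + (d + 1) := ⟨i - j - 1, by omega⟩
    have := congrArg star (hlt j d)
    simpa using this

variable {ι : Type} [Fintype ι] [DecidableEq ι]

/-- Matrices inside `D`, from isometries with orthogonal ranges. -/
noncomputable def embD (t : ι → D) (M : Matrix ι ι ℂ) : D :=
  ∑ p, ∑ q, M p q • (t p * star (t q))

omit [DecidableEq ι] in
lemma star_embD (t : ι → D) (M : Matrix ι ι ℂ) : star (embD t M) = embD t Mᴴ := by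
  unfold embD
  simp only [star_sum, star_smul, star_mul, star_star, Matrix.conjTranspose_apply]
  exact Finset.sum_comm

lemma embD_mul {t : ι → D} (ht : ∀ p q, star (t p) * t q = if p = q then 1 else 0)
    (M N : Matrix ι ι ℂ) : embD t M * embD t N = embD t (M * N) := by
  have h1 : ∀ p q r s, (M p q • (t p * star (t q))) * (N r s • (t r * star (t s))) =
      if q = r then (M p q * N r s) • (t p * star (t s)) else 0 := by
    intro p q r s
    have e : (M p q • (t p * star (t q))) * (N r s • (t r * star (t s))) =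
        (M p q * N r s) • (t p * (star (t q) * t r) * star (t s)) := by
      simp only [smul_mul_assoc, mul_smul_comm, smul_smul, mul_assoc]
      rw [mul_comm]
    rw [e, ht]
    split_ifs with h
    · rw [mul_one]
    · simp
  unfold embD
  rw [Finset.sum_mul]
  refine Finset.sum_congr rfl fun p _ => ?_
  rw [Finset.sum_mul]
  have h2 : ∀ q, (M p q • (t p * star (t q))) * ∑ r, ∑ s, N r s • (t r * star (t s)) =
      ∑ s, (M p q * N q s) • (t p * star (t s)) := by
    intro q
    rw [Finset.mul_sum, Finset.sum_eq_single q]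
    · rw [Finset.mul_sum]
      refine Finset.sum_congr rfl fun s _ => ?_
      rw [h1, if_pos rfl]
    · intro r _ hr
      rw [Finset.mul_sum]
      refine Finset.sum_eq_zero fun s _ => ?_
      rw [h1, if_neg (Ne.symm hr)]
    · simp
  rw [Finset.sum_congr rfl fun q _ => h2 q, Finset.sum_comm]
  refine Finset.sum_congr rfl fun s _ => ?_
  rw [Matrix.mul_apply, Finset.sum_smul]

/-- Block diagonal embedding of `D^n` into `D`. -/
noncomputable def blk {n : ℕ} (t : ℕ → D) (ht : ∀ p q, star (t p) * t q = if p = q then 1 else 0) :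
    (Fin n → D) →⋆ₙₐ[ℂ] D where
  toFun b := ∑ j : Fin n, t j * b j * star (t j)
  map_smul' c b := by
    simp [Finset.smul_sum]
  map_zero' := by simp
  map_add' a b := by
    simp [mul_add, add_mul, Finset.sum_add_distrib]
  map_mul' a b := by
    rw [Finset.sum_mul]
    refine Finset.sum_congr rfl fun j _ => ?_
    rw [Finset.mul_sum, Finset.sum_eq_single j]
    · calc t j * (a * b) j * star (t j) = t j * a j * 1 * b j * star (t j) := by
            rw [Pi.mul_apply]; noncomm_ring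
        _ = t j * a j * (star (t j) * t j) * b j * star (t j) := by rw [ht]; simp
        _ = _ := by noncomm_ring
    · intro i _ hi
      calc t j * a j * star (t j) * (t i * b i * star (t i))
          = t j * a j * (star (t j) * t i) * (b i * star (t i)) := by noncomm_ring
        _ = 0 := by
          rw [ht, if_neg (fun h => hi (Fin.ext h).symm)]; simp
    · simp
  map_star' a := by
    simp [mul_assoc]

lemma blk_norm {n : ℕ} (t : ℕ → D) (ht : ∀ p q, star (t p) * t q = if p = q then 1 else 0)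
    (b : ℕ →ᵇ D) : ‖blk (n := n) t ht (fun j => b j)‖ ≤ ‖b‖ := by
  refine (NonUnitalStarAlgHom.norm_apply_le (blk (n := n) t ht) _).trans ?_
  rw [pi_norm_le_iff_of_nonneg (norm_nonneg _)]
  intro j
  exact b.norm_coe_le_norm _

lemma blk_corner {n : ℕ} (t : ℕ → D) (ht : ∀ p q, star (t p) * t q = if p = q then 1 else 0)
    (b : Fin n → D) (j : Fin n) : star (t j) * blk t ht b * t j = b j := by
  show star (t j) * (∑ i : Fin n, t i * b i * star (t i)) * t j = b j
  rw [Finset.mul_sum, Finset.sum_mul, Finset.sum_eq_single j]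
  · calc star (t j) * (t j * b j * star (t j)) * t j
        = (star (t j) * t j) * b j * (star (t j) * t j) := by noncomm_ring
      _ = b j := by rw [ht]; simp
  · intro i _ hi
    calc star (t j) * (t i * b i * star (t i)) * t j
        = (star (t j) * t i) * (b i * star (t i) * t j) := by noncomm_ring
      _ = 0 := by rw [ht, if_neg (fun h => hi (Fin.ext h).symm)]; simp
  · simp

/-- The sequence of block diagonal sums. -/
noncomputable def diagSeq (t : ℕ → D) (ht : ∀ p q, star (t p) * t q = if p = q then 1 else 0)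
    (b : ℕ →ᵇ D) : ℕ →ᵇ D :=
  BoundedContinuousFunction.ofNormedAddCommGroupDiscrete
    (fun n => blk (n := n) t ht (fun j => b j)) ‖b‖ (fun _ => blk_norm t ht b)

lemma diagSeq_apply (t : ℕ → D) (ht : ∀ p q, star (t p) * t q = if p = q then 1 else 0)
    (b : ℕ →ᵇ D) (n : ℕ) : diagSeq t ht b n = blk (n := n) t ht (fun j => b j) := rfl

/-- Every subalgebra of `ℓ^∞(ℕ, D)` embeds into the ultrapower. -/
noncomputable def embU (𝒰 : Ultrafilter ℕ) (t : ℕ → D)
    (ht : ∀ p q, star (t p) * t q = if p = q then 1 else 0)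
    (B : StarSubalgebra ℂ (ℕ →ᵇ D)) : B →⋆ₙₐ[ℂ] Ultrapower D 𝒰 where
  toFun b := cls D 𝒰 (diagSeq t ht b)
  map_smul' c b := by
    show cls D 𝒰 (diagSeq t ht ((c • b : B) : ℕ →ᵇ D)) = c • cls D 𝒰 (diagSeq t ht b)
    rw [← cls_smul]
    congr 1
    ext n
    rw [diagSeq_apply]
    exact map_smul (blk (n := n) t ht) c (fun j : Fin n => (b : ℕ →ᵇ D) j)
  map_zero' := by
    rw [← cls_zero]
    congr 1
    ext n
    rw [diagSeq_apply]
    exact map_zero (blk (n := n) t ht)
  map_add' a b := by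
    rw [← cls_add]
    congr 1
    ext n
    rw [diagSeq_apply]
    exact map_add (blk (n := n) t ht) (fun j : Fin n => (a : ℕ →ᵇ D) j)
      (fun j : Fin n => (b : ℕ →ᵇ D) j)
  map_mul' a b := by
    rw [← cls_mul]
    congr 1
    ext n
    rw [diagSeq_apply]
    exact map_mul (blk (n := n) t ht) (fun j : Fin n => (a : ℕ →ᵇ D) j)
      (fun j : Fin n => (b : ℕ →ᵇ D) j)
  map_star' a := by
    rw [← cls_star]
    congr 1
    ext n
    rw [diagSeq_apply]
    exact map_star (blk (n := n) t ht) (fun j : Fin n => (a : ℕ →ᵇ D) j)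

lemma embU_injective (𝒰 : Ultrafilter ℕ) (h𝒰 : (𝒰 : Filter ℕ) ≤ Filter.cofinite) (t : ℕ → D)
    (ht : ∀ p q, star (t p) * t q = if p = q then 1 else 0)
    (B : StarSubalgebra ℂ (ℕ →ᵇ D)) : Function.Injective (embU 𝒰 t ht B) := by
  intro a b hab
  have h1 : Tendsto (fun n => ‖diagSeq t ht (a : ℕ →ᵇ D) n - diagSeq t ht (b : ℕ →ᵇ D) n‖)
      (𝒰 : Filter ℕ) (𝓝 0) := (cls_eq_iff _ _).1 hab
  apply Subtype.ext
  ext j
  rw [← sub_eq_zero, ← norm_eq_zero]
  apply le_antisymm _ (norm_nonneg _)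
  have ht1 : ‖t j‖ ≤ 1 := norm_le_one_of_pi (by rw [mul_assoc, ht]; simp)
  refine ge_of_tendsto h1 ?_
  have hev : ∀ᶠ n in (𝒰 : Filter ℕ), j < n := by
    apply h𝒰
    rw [Nat.cofinite_eq_atTop]
    exact eventually_gt_atTop j
  filter_upwards [hev] with n hn
  have e1 : (a : ℕ →ᵇ D) j - (b : ℕ →ᵇ D) j =
      star (t j) * (diagSeq t ht (a : ℕ →ᵇ D) n - diagSeq t ht (b : ℕ →ᵇ D) n) * t j := by
    rw [mul_sub, sub_mul, diagSeq_apply, diagSeq_apply]
    rw [blk_corner t ht (fun j => (a : ℕ →ᵇ D) j) ⟨j, hn⟩,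
      blk_corner t ht (fun j => (b : ℕ →ᵇ D) j) ⟨j, hn⟩]
  rw [e1]
  calc _ ≤ ‖star (t j) * (diagSeq t ht (a : ℕ →ᵇ D) n - diagSeq t ht (b : ℕ →ᵇ D) n)‖ * ‖t j‖ :=
        norm_mul_le _ _
    _ ≤ (‖star (t j)‖ * ‖diagSeq t ht (a : ℕ →ᵇ D) n - diagSeq t ht (b : ℕ →ᵇ D) n‖) * ‖t j‖ := by
        gcongr; exact norm_mul_le _ _
    _ ≤ (1 * ‖diagSeq t ht (a : ℕ →ᵇ D) n - diagSeq t ht (b : ℕ →ᵇ D) n‖) * 1 := by
        rw [norm_star]; gcongr
    _ = _ := by ring

end units

end Pool.Agent.Helper965.O2
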