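import Pool.Agent.Helper965.O2.Key
import Pool.Agent.Helper965.O2.Emb

set_option autoImplicit false

open Filter Topology BoundedContinuousFunction
open scoped BigOperators Matrix

namespace Pool.Agent.Helper965.O2

section

variable {H : Type} [NormedAddCommGroup H] [InnerProductSpace ℂ H] [CompleteSpace H]

/-- The pair as a family. -/
def fam (s₁ s₂ : H →L[ℂ] H) : Bool → (H →L[ℂ] H) := fun b => if b then s₁ else s₂

omit [CompleteSpace H] in
lemma range_fam (s₁ s₂ : H →L[ℂ] H) : Set.range (fam s₁ s₂) = {s₁, s₂} := by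
  ext x
  simp only [Set.mem_range, Bool.exists_bool, fam, Set.mem_insert_iff, Set.mem_singleton_iff]
  constructor
  · rintro (h | h)
    · right; simpa using h.symm
    · left; simpa using h.symm
  · rintro (h | h)
    · right; simpa using h.symm
    · left; simpa using h.symm

variable {s₁ s₂ : H →L[ℂ] H}

lemma isCuntz_fam (h1 : star s₁ * s₁ = 1) (h2 : star s₂ * s₂ = 1)
    (h3 : s₁ * star s₁ + s₂ * star s₂ = 1) : IsCuntz (fam s₁ s₂) where
  iso i := by cases i <;> simpa [fam]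
  sum := by simpa [fam] using h3

/-- The inclusion of `𝒪₂` in the bounded operators. -/
noncomputable def inc (s₁ s₂ : H →L[ℂ] H) : O2 s₁ s₂ →⋆ₐ[ℂ] (H →L[ℂ] H) :=
  (generated s₁ s₂).subtype

lemma inc_inj (x y : O2 s₁ s₂) (h : inc s₁ s₂ x = inc s₁ s₂ y) : x = y := Subtype.ext h

lemma inc_mem (x : O2 s₁ s₂) : inc s₁ s₂ x ∈ generated s₁ s₂ := x.2

lemma norm_inc (x : O2 s₁ s₂) : ‖inc s₁ s₂ x‖ = ‖x‖ := rfl

/-- The generators inside the Cuntz algebra. -/
noncomputable def g₁ (s₁ s₂ : H →L[ℂ] H) : O2 s₁ s₂ :=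
  (⟨s₁, subset_closure (StarAlgebra.subset_adjoin ℂ _ (by simp))⟩ : generated s₁ s₂)

/-- The generators inside the Cuntz algebra. -/
noncomputable def g₂ (s₁ s₂ : H →L[ℂ] H) : O2 s₁ s₂ :=
  (⟨s₂, subset_closure (StarAlgebra.subset_adjoin ℂ _ (by simp))⟩ : generated s₁ s₂)

lemma inc_g₁ : inc s₁ s₂ (g₁ s₁ s₂) = s₁ := rfl
lemma inc_g₂ : inc s₁ s₂ (g₂ s₁ s₂) = s₂ := rfl

/-- The quantum expanders inside the Cuntz algebra. -/
noncomputable def Wseq (s₁ s₂ : H →L[ℂ] H) (i : Fin 3) (k : ℕ) : O2 s₁ s₂ :=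
  embD (fun p : ZMod (2 * k + 1) => g₂ s₁ s₂ ^ p.val * g₁ s₁ s₂) (w (2 * k + 1) i)

lemma inc_embD {ι : Type} [Fintype ι] (t : ι → O2 s₁ s₂) (M : Matrix ι ι ℂ) :
    inc s₁ s₂ (embD t M) = emb (fun p => inc s₁ s₂ (t p)) M := by
  unfold embD emb
  simp only [map_sum, map_smul, map_mul, map_star]

end

end Pool.Agent.Helper965.O2
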